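import Mathlib
import Pool.Agent.K9h9.RD.Small

/-!
# The equation with an arbitrary first term `X`, divisible by `D ^ p`
-/

set_option autoImplicit false

namespace Pool.Agent.K9h9.XR

open Finset Pool.Agent.K9h9.CB Pool.Agent.K9h9.SR Pool.Agent.K9h9.RD

/-- one of `X`, `y ^ q`, `z ^ r` is the sum of the two others -/
def EqX (X y z q r : ℕ) : Prop :=
  X + y ^ q = z ^ r ∨ X + z ^ r = y ^ q ∨ y ^ q + z ^ r = X

/-- in terms of integers with signs -/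
lemma EqX.signs {X y z q r : ℕ} (h : EqX X y z q r) :
    ∃ s t : ℤ, (s = 1 ∨ s = -1) ∧ (t = 1 ∨ t = -1) ∧ (z : ℤ) ^ r = s * X + t * y ^ q := by
  rcases h with h | h | h
  · refine ⟨1, 1, Or.inl rfl, Or.inl rfl, ?_⟩
    rw [one_mul, one_mul]
    exact_mod_cast h.symm
  · refine ⟨-1, 1, Or.inr rfl, Or.inl rfl, ?_⟩
    have h1 : (X : ℤ) + z ^ r = y ^ q := by exact_mod_cast h
    linarith
  · refine ⟨1, -1, Or.inl rfl, Or.inr rfl, ?_⟩
    have h1 : (y : ℤ) ^ q + z ^ r = X := by exact_mod_cast h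
    linarith

lemma EqX.le {X y z q r : ℕ} (h : EqX X y z q r) : z ^ r ≤ X + y ^ q := by
  rcases h with h | h | h <;> omega

/-- the squares are congruent -/
lemma EqX.modEq {X y z q r N : ℕ} (h : EqX X y z q r) (hN : N ∣ X) :
    (z ^ 2) ^ r ≡ (y ^ 2) ^ q [MOD N] := by
  obtain ⟨s, t, hs, ht, hst⟩ := h.signs
  have hN' : (N : ℤ) ∣ (X : ℤ) := by exact_mod_cast hN
  have hs2 : s * s = 1 := by rcases hs with rfl | rfl <;> norm_num
  have ht2 : t * t = 1 := by rcases ht with rfl | rfl <;> norm_num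
  apply Nat.ModEq.symm
  rw [Nat.modEq_iff_dvd]
  push_cast
  have h1 : ((z : ℤ) ^ 2) ^ r - ((y : ℤ) ^ 2) ^ q = (X : ℤ) * (X + 2 * s * t * y ^ q) := by
    have h2 : ((z : ℤ) ^ 2) ^ r = ((z : ℤ) ^ r) ^ 2 := by rw [← pow_mul, ← pow_mul, mul_comm]
    have h3 : ((y : ℤ) ^ 2) ^ q = ((y : ℤ) ^ q) ^ 2 := by rw [← pow_mul, ← pow_mul, mul_comm]
    rw [h2, h3, hst]
    linear_combination (X : ℤ) * X * hs2 + (y : ℤ) ^ q * y ^ q * ht2
  rw [h1]
  exact hN'.mul_right _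

/-- The integers `b`, `B0`, `X`, `A`. -/
lemma exists_signsX {Y y z p q r D u w : ℕ} (hr : r.Prime) (hrq : ¬ r ∣ q) (heq : EqX Y y z q r)
    (hD3 : 3 ≤ D) (hDx : D ^ p ∣ Y) (hp : p ≠ 0) (hwD : IsCoprime (D : ℤ) w)
    (h1 : (D : ℤ) ∣ y * u ^ r - w ^ r ∨ (D : ℤ) ∣ y * u ^ r + w ^ r)
    (h2 : (D : ℤ) ∣ z * u ^ q - w ^ q ∨ (D : ℤ) ∣ z * u ^ q + w ^ q) :
    ∃ b B0 X A : ℤ, |b| = z * u ^ q ∧ |B0| = w ^ q ∧ |X| = y * u ^ r ∧ |A| = w ^ r ∧
      (D : ℤ) ∣ X - A ∧ (D : ℤ) ∣ b - B0 ∧ (D : ℤ) ^ p ∣ b ^ r * A ^ q - X ^ q * B0 ^ r := by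
  obtain ⟨s, t, hs, ht, hst⟩ := heq.signs
  have hDx' : (D : ℤ) ^ p ∣ (Y : ℤ) := by exact_mod_cast hDx
  have hDxp : (D : ℤ) ∣ (Y : ℤ) := (dvd_pow_self _ hp).trans hDx'
  obtain ⟨δ, hδ, hD1⟩ : ∃ δ : ℤ, (δ = 1 ∨ δ = -1) ∧ (D : ℤ) ∣ y * u ^ r - δ * w ^ r := by
    rcases h1 with h | h
    · exact ⟨1, Or.inl rfl, by rw [one_mul]; exact h⟩
    · refine ⟨-1, Or.inr rfl, ?_⟩
      rw [neg_one_mul, sub_neg_eq_add]
      exact h
  obtain ⟨γ, hγ, hD2⟩ : ∃ γ : ℤ, (γ = 1 ∨ γ = -1) ∧ (D : ℤ) ∣ z * u ^ q - γ * w ^ q := by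
    rcases h2 with h | h
    · exact ⟨1, Or.inl rfl, by rw [one_mul]; exact h⟩
    · refine ⟨-1, Or.inr rfl, ?_⟩
      rw [neg_one_mul, sub_neg_eq_add]
      exact h
  have hδa := pm_abs hδ
  have hγa := pm_abs hγ
  have hta := pm_abs ht
  have htt := pm_sq ht
  have hwqr : IsCoprime (D : ℤ) ((w : ℤ) ^ (q * r)) := hwD.pow_right
  rcases Nat.Prime.eq_two_or_odd' hr with hr2 | hodd
  · -- `r = 2`
    have hqodd : Odd q := by
      rw [← Nat.not_even_iff_odd, even_iff_two_dvd, ← hr2]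
      exact hrq
    have hpmq : ∀ v : ℤ, (v = 1 ∨ v = -1) → v ^ q = v := by
      rintro v (rfl | rfl)
      · exact one_pow q
      · exact hqodd.neg_one_pow
    have htδ : t * δ = 1 := by
      refine eq_of_dvd_sub_mul hD3 (Pool.Agent.K9h9.SR.pm_mul ht hδ) (Or.inl rfl) hwqr ?_
      have h3 : (D : ℤ) ∣ (z * u ^ q) ^ r - (γ * w ^ q) ^ r := hD2.trans (sub_dvd_pow_sub_pow _ _ r)
      have h4 : (D : ℤ) ∣ (y * u ^ r) ^ q - (δ * w ^ r) ^ q := hD1.trans (sub_dvd_pow_sub_pow _ _ q)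
      have h5 : (t * δ - 1) * (w : ℤ) ^ (q * r) = ((z * u ^ q) ^ r - (γ * w ^ q) ^ r) -
          t * ((y * u ^ r) ^ q - (δ * w ^ r) ^ q) - s * u ^ (q * r) * Y := by
        have h6 : ((z : ℤ) * u ^ q) ^ r = z ^ r * u ^ (q * r) := by rw [mul_pow, ← pow_mul]
        have h7 : (γ * (w : ℤ) ^ q) ^ r = w ^ (q * r) := by
          rw [mul_pow, ← pow_mul, hr2]
          rcases hγ with h | h <;> rw [h] <;> ring
        have h8 : ((y : ℤ) * u ^ r) ^ q = y ^ q * u ^ (q * r) := by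
          rw [mul_pow, ← pow_mul, mul_comm r q]
        have h9 : (δ * (w : ℤ) ^ r) ^ q = δ * w ^ (q * r) := by
          rw [mul_pow, ← pow_mul, mul_comm r q, hpmq δ hδ]
        rw [h6, h7, h8, h9, hst]
        ring
      rw [h5]
      exact dvd_sub (dvd_sub h3 (h4.mul_left _)) (hDxp.mul_left _)
    refine ⟨z * u ^ q, γ * w ^ q, t * (y * u ^ r), w ^ r, ?_, ?_, ?_, ?_, ?_, hD2, ?_⟩
    · exact abs_of_nonneg (by positivity)
    · rw [abs_mul, hγa, one_mul]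
      exact abs_of_nonneg (by positivity)
    · rw [abs_mul, hta, one_mul]
      exact abs_of_nonneg (by positivity)
    · exact abs_of_nonneg (by positivity)
    · have h3 : t * ((y : ℤ) * u ^ r) - w ^ r = t * (y * u ^ r - δ * w ^ r) := by
        linear_combination (w : ℤ) ^ r * htδ
      rw [h3]
      exact hD1.mul_left _
    · have h3 : ((z : ℤ) * u ^ q) ^ r * (w ^ r) ^ q - (t * (y * u ^ r)) ^ q * (γ * w ^ q) ^ r =
          s * u ^ (q * r) * w ^ (q * r) * Y := by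
        have h6 : ((z : ℤ) * u ^ q) ^ r = z ^ r * u ^ (q * r) := by rw [mul_pow, ← pow_mul]
        have h7 : (γ * (w : ℤ) ^ q) ^ r = w ^ (q * r) := by
          rw [mul_pow, ← pow_mul, hr2]
          rcases hγ with h | h <;> rw [h] <;> ring
        have h8 : (t * ((y : ℤ) * u ^ r)) ^ q = t * (y ^ q * u ^ (q * r)) := by
          rw [mul_pow, mul_pow, ← pow_mul, mul_comm r q, hpmq t ht]
        have h9 : ((w : ℤ) ^ r) ^ q = w ^ (q * r) := by rw [← pow_mul, mul_comm r q]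
        rw [h6, h7, h8, h9, hst]
        ring
      rw [h3]
      exact hDx'.mul_left _
  · -- `r` odd
    have hpmr : ∀ v : ℤ, (v = 1 ∨ v = -1) → v ^ r = v := by
      rintro v (rfl | rfl)
      · exact one_pow r
      · exact hodd.neg_one_pow
    have hδq := pm_pow_pm hδ q
    have htγ : t * γ = δ ^ q := by
      refine eq_of_dvd_sub_mul hD3 (Pool.Agent.K9h9.SR.pm_mul ht hγ) hδq hwqr ?_
      have h3 : (D : ℤ) ∣ (z * u ^ q) ^ r - (γ * w ^ q) ^ r := hD2.trans (sub_dvd_pow_sub_pow _ _ r)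
      have h4 : (D : ℤ) ∣ (y * u ^ r) ^ q - (δ * w ^ r) ^ q := hD1.trans (sub_dvd_pow_sub_pow _ _ q)
      have h5 : (t * γ - δ ^ q) * (w : ℤ) ^ (q * r) = (-t) * ((z * u ^ q) ^ r - (γ * w ^ q) ^ r) +
          ((y * u ^ r) ^ q - (δ * w ^ r) ^ q) + t * s * u ^ (q * r) * Y := by
        have h6 : ((z : ℤ) * u ^ q) ^ r = z ^ r * u ^ (q * r) := by rw [mul_pow, ← pow_mul]
        have h7 : (γ * (w : ℤ) ^ q) ^ r = γ * w ^ (q * r) := by
          rw [mul_pow, ← pow_mul, hpmr γ hγ]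
        have h8 : ((y : ℤ) * u ^ r) ^ q = y ^ q * u ^ (q * r) := by
          rw [mul_pow, ← pow_mul, mul_comm r q]
        have h9 : (δ * (w : ℤ) ^ r) ^ q = δ ^ q * w ^ (q * r) := by
          rw [mul_pow, ← pow_mul, mul_comm r q]
        rw [h6, h7, h8, h9, hst]
        linear_combination (y : ℤ) ^ q * u ^ (q * r) * htt
      rw [h5]
      exact dvd_add (dvd_add (h3.mul_left _) h4) (hDxp.mul_left _)
    refine ⟨t * (z * u ^ q), (t * γ) * w ^ q, y * u ^ r, δ * w ^ r, ?_, ?_, ?_, ?_, hD1, ?_, ?_⟩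
    · rw [abs_mul, hta, one_mul]
      exact abs_of_nonneg (by positivity)
    · rw [abs_mul, abs_mul, hγa, hta, one_mul, one_mul]
      exact abs_of_nonneg (by positivity)
    · exact abs_of_nonneg (by positivity)
    · rw [abs_mul, hδa, one_mul]
      exact abs_of_nonneg (by positivity)
    · have h3 : t * ((z : ℤ) * u ^ q) - t * γ * w ^ q = t * (z * u ^ q - γ * w ^ q) := by ring
      rw [h3]
      exact hD2.mul_left _
    · have h3 : (t * ((z : ℤ) * u ^ q)) ^ r * (δ * w ^ r) ^ q - (y * u ^ r) ^ q * (t * γ * w ^ q) ^ r =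
          t * s * δ ^ q * u ^ (q * r) * w ^ (q * r) * Y := by
        have h6 : (t * ((z : ℤ) * u ^ q)) ^ r = t * (z ^ r * u ^ (q * r)) := by
          rw [mul_pow, mul_pow, ← pow_mul, hpmr t ht]
        have h7 : (t * γ * (w : ℤ) ^ q) ^ r = δ ^ q * w ^ (q * r) := by
          rw [htγ, mul_pow, hpmr _ hδq, ← pow_mul]
        have h8 : ((y : ℤ) * u ^ r) ^ q = y ^ q * u ^ (q * r) := by
          rw [mul_pow, ← pow_mul, mul_comm r q]
        have h9 : (δ * (w : ℤ) ^ r) ^ q = δ ^ q * w ^ (q * r) := by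
          rw [mul_pow, ← pow_mul, mul_comm r q]
        rw [h6, h7, h8, h9, hst]
        linear_combination (y : ℤ) ^ q * u ^ (q * r) * (δ ^ q * w ^ (q * r)) * htt
      rw [h3]
      exact hDx'.mul_left _

theorem fracX (κ : ℕ) : ∃ C : ℕ, ∀ Y y z p q r D u w : ℕ, 2 ≤ D → D ^ p ∣ Y → 0 < y → 0 < z → 0 < u →
    0 < w → Nat.Coprime w D → y * u ^ r ≠ w ^ r → z * u ^ q ≠ w ^ q →
    (y * u ^ r) ^ 2 ≡ (w ^ r) ^ 2 [MOD D] → (z * u ^ q) ^ 2 ≡ (w ^ q) ^ 2 [MOD D] → 0 < q → 0 < r →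
    Nat.Coprime q r → EqX Y y z q r → (max (y * u ^ r) (w ^ r)) ^ q ≤ D ^ (κ * p) →
    (z * u ^ q) ^ r ≤ D ^ (κ * p) → D ^ r ≤ (max (y * u ^ r) (w ^ r)) ^ C := by
  obtain ⟨C, hC⟩ := Pool.Agent.K9h9.SR.lower (2 * (κ + 1)) (by omega)
  refine ⟨2 * C, ?_⟩
  intro Y y z p q r D u w hD hDx hy hz hu hw hwD hne1 hne2 h1 h2 hq hr hcop heq hH hzr
  have hD0 : 0 < D := by omega
  have hD1 : D ^ (2 * (κ * p)) ≤ D ^ (2 * (κ + 1) * p) := by
    apply Nat.pow_le_pow_right hD0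
    nlinarith
  have hrel : ((z * u ^ q) ^ 2) ^ r * ((w ^ r) ^ 2) ^ q ≡ ((w ^ q) ^ 2) ^ r * ((y * u ^ r) ^ 2) ^ q
      [MOD D ^ p] := by
    have h3 := (heq.modEq hDx).mul_right (u ^ (2 * (q * r)) * w ^ (2 * (q * r)))
    have h4 : ((z * u ^ q) ^ 2) ^ r * ((w ^ r) ^ 2) ^ q =
        (z ^ 2) ^ r * (u ^ (2 * (q * r)) * w ^ (2 * (q * r))) := by
      have e0 : ((u ^ q) ^ 2) ^ r = u ^ (2 * (q * r)) := by
        rw [← pow_mul, ← pow_mul]
        congr 1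
        ring
      have e1 : ((z * u ^ q) ^ 2) ^ r = (z ^ 2) ^ r * u ^ (2 * (q * r)) := by
        rw [mul_pow, mul_pow, e0]
      have e2 : ((w ^ r) ^ 2) ^ q = w ^ (2 * (q * r)) := by
        rw [← pow_mul, ← pow_mul]
        congr 1
        ring
      rw [e1, e2]
      ring
    have h5 : ((w ^ q) ^ 2) ^ r * ((y * u ^ r) ^ 2) ^ q =
        (y ^ 2) ^ q * (u ^ (2 * (q * r)) * w ^ (2 * (q * r))) := by
      have e0 : ((u ^ r) ^ 2) ^ q = u ^ (2 * (q * r)) := by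
        rw [← pow_mul, ← pow_mul]
        congr 1
        ring
      have e1 : ((y * u ^ r) ^ 2) ^ q = (y ^ 2) ^ q * u ^ (2 * (q * r)) := by
        rw [mul_pow, mul_pow, e0]
      have e2 : ((w ^ q) ^ 2) ^ r = w ^ (2 * (q * r)) := by
        rw [← pow_mul, ← pow_mul]
        congr 1
        ring
      rw [e1, e2]
      ring
    rw [h4, h5]
    exact h3
  have hcw : Nat.Coprime ((w ^ r) ^ 2) D := (hwD.pow_left r).pow_left 2
  have hcw2 : Nat.Coprime ((w ^ q) ^ 2) D := (hwD.pow_left q).pow_left 2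
  have hcy : Nat.Coprime ((y * u ^ r) ^ 2) D := by
    rw [Nat.coprime_iff_gcd_eq_one, h1.gcd_eq]
    exact hcw
  have hcz : Nat.Coprime ((z * u ^ q) ^ 2) D := by
    rw [Nat.coprime_iff_gcd_eq_one, h2.gcd_eq]
    exact hcw2
  have h3 := hC D ((z * u ^ q) ^ 2) ((w ^ q) ^ 2) ((y * u ^ r) ^ 2) ((w ^ r) ^ 2) q r p hD h2 h1
    (fun h => hne2 (Nat.pow_left_injective two_ne_zero h))
    (fun h => hne1 (Nat.pow_left_injective two_ne_zero h)) (by positivity) (by positivity)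
    (by positivity) (by positivity) hcz hcw2 hcy hcw hrel hcop hq hr (by
      rw [max_sq, ← pow_mul, mul_comm 2 r, pow_mul]
      refine le_trans ?_ hD1
      rw [mul_comm 2 (κ * p), pow_mul]
      apply Nat.pow_le_pow_left
      rcases le_total (z * u ^ q) (w ^ q) with h | h
      · rw [max_eq_right h]
        calc (w ^ q) ^ r = (w ^ r) ^ q := by rw [← pow_mul, ← pow_mul, mul_comm]
          _ ≤ (max (y * u ^ r) (w ^ r)) ^ q := Nat.pow_le_pow_left (le_max_right _ _) q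
          _ ≤ _ := hH
      · rw [max_eq_left h]
        exact hzr) (by
      rw [max_sq, ← pow_mul, mul_comm 2 q, pow_mul]
      refine le_trans ?_ hD1
      rw [mul_comm 2 (κ * p), pow_mul]
      exact Nat.pow_le_pow_left hH 2)
  rwa [max_sq, ← pow_mul] at h3

/-- the congruence for `z` -/
lemma zcongX {Y y z q r D u w : ℕ} (hr : r.Prime) (hD3 : 3 ≤ D) (hDx : D ∣ Y)
    (hwD : Nat.Coprime w D) (heq : EqX Y y z q r)
    (h1 : (D : ℤ) ∣ y * u ^ r - w ^ r ∨ (D : ℤ) ∣ y * u ^ r + w ^ r)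
    (h2 : (r ≠ 2 ∧ ∀ ℓ : ℕ, ℓ.Prime → ℓ ∣ D → ¬ r ∣ ℓ - 1) ∨
      (D : ℤ) ∣ z * u ^ q - w ^ q ∨ (D : ℤ) ∣ z * u ^ q + w ^ q) :
    ∃ E : ℕ, E ∣ D ∧ D ≤ r * E ∧ D ≤ E ^ 2 ∧
      ((E : ℤ) ∣ z * u ^ q - w ^ q ∨ (E : ℤ) ∣ z * u ^ q + w ^ q) := by
  rcases h2 with ⟨hr2, hl⟩ | h2
  swap
  · exact ⟨D, dvd_rfl, Nat.le_mul_of_pos_left _ hr.pos, Nat.le_self_pow two_ne_zero _, h2⟩
  have hodd : Odd r := hr.odd_of_ne_two hr2
  obtain ⟨s, t, hs, ht, hst⟩ := heq.signs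
  have hDx' : (D : ℤ) ∣ (Y : ℤ) := by exact_mod_cast hDx
  obtain ⟨δ, hδ, hD1⟩ : ∃ δ : ℤ, (δ = 1 ∨ δ = -1) ∧ (D : ℤ) ∣ y * u ^ r - δ * w ^ r := by
    rcases h1 with h | h
    · exact ⟨1, Or.inl rfl, by rw [one_mul]; exact h⟩
    · refine ⟨-1, Or.inr rfl, ?_⟩
      rw [neg_one_mul, sub_neg_eq_add]
      exact h
  have hδq := pm_pow_pm hδ q
  have htδ := Pool.Agent.K9h9.SR.pm_mul ht hδq
  have hpmr : ∀ v : ℤ, (v = 1 ∨ v = -1) → v ^ r = v := by
    rintro v (rfl | rfl)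
    · exact one_pow r
    · exact hodd.neg_one_pow
  have h3 : (D : ℤ) ∣ (y * u ^ r) ^ q - (δ * w ^ r) ^ q := hD1.trans (sub_dvd_pow_sub_pow _ _ q)
  have hwDZ : IsCoprime (D : ℤ) (w : ℤ) := by
    rw [Nat.isCoprime_iff_coprime, Nat.coprime_comm]
    exact hwD
  have hcop : IsCoprime (D : ℤ) ((t * δ ^ q) * w ^ q) := by
    refine IsCoprime.mul_right ?_ hwDZ.pow_right
    rcases htδ with h | h <;> rw [h]
    · exact isCoprime_one_right
    · exact isCoprime_one_right.neg_right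
  have h4 : (D : ℤ) ∣ (z * u ^ q) ^ r - ((t * δ ^ q) * w ^ q) ^ r := by
    have h5 : ((z : ℤ) * u ^ q) ^ r - ((t * δ ^ q) * w ^ q) ^ r =
        t * ((y * u ^ r) ^ q - (δ * w ^ r) ^ q) + s * u ^ (q * r) * Y := by
      have h6 : ((z : ℤ) * u ^ q) ^ r = z ^ r * u ^ (q * r) := by rw [mul_pow, ← pow_mul]
      have h7 : ((t * δ ^ q) * (w : ℤ) ^ q) ^ r = t * δ ^ q * w ^ (q * r) := by
        rw [mul_pow, hpmr _ htδ, ← pow_mul]
      have h8 : ((y : ℤ) * u ^ r) ^ q = y ^ q * u ^ (q * r) := by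
        rw [mul_pow, ← pow_mul, mul_comm r q]
      have h9 : (δ * (w : ℤ) ^ r) ^ q = δ ^ q * w ^ (q * r) := by
        rw [mul_pow, ← pow_mul, mul_comm r q]
      rw [h6, h7, h8, h9, hst]
      ring
    rw [h5]
    exact dvd_add (h3.mul_left _) (hDx'.mul_left _)
  obtain ⟨E, hE1, hE2, hE3, h5⟩ := root_cong hr hr2 (by omega) hl hcop h4
  refine ⟨E, hE1, hE2, hE3, ?_⟩
  rcases htδ with h | h
  · left
    rw [h, one_mul] at h5
    exact h5
  · right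
    rw [h, neg_one_mul, sub_neg_eq_add] at h5
    exact h5

theorem small_rootsX (θ ε : ℝ) (hθ : 1 ≤ θ) (hε : 0 < ε) (L : ℕ) (hL : 2 ≤ L) : ∃ D₀ P₀ : ℕ,
    ∀ (Y y z p q r D u w H : ℕ) (s : ℝ), D₀ ≤ D → P₀ ≤ p → r.Prime → L ≤ r → ¬ r ∣ q →
      D ^ p ∣ Y → 0 < y → 0 < z → 0 < u → 0 < w → Nat.Coprime w D →
      ((D : ℤ) ∣ y * u ^ r - w ^ r ∨ (D : ℤ) ∣ y * u ^ r + w ^ r) →
      ((r ≠ 2 ∧ ∀ ℓ : ℕ, ℓ.Prime → ℓ ∣ D → ¬ r ∣ ℓ - 1) ∨ (D : ℤ) ∣ z * u ^ q - w ^ q ∨ (D : ℤ) ∣ z * u ^ q + w ^ q) →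
      y * u ^ r ≠ w ^ r → z * u ^ q ≠ w ^ q → EqX Y y z q r → H = max (y * u ^ r) (w ^ r) →
      q ≤ s → (H : ℝ) ^ s ≤ (D : ℝ) ^ (θ * p) →
      (Y : ℝ) * (u : ℝ) ^ (q * r) * (w : ℝ) ^ (r * (s - q)) ≤ (H : ℝ) ^ s →
      (D : ℝ) ^ (L * (1 - θ * (L - 1) / (2 * r)) - ε) ≤ H := by
  obtain ⟨κ, hκ⟩ : ∃ κ : ℕ, κ = ⌈θ⌉₊ := ⟨_, rfl⟩
  have hθκ : θ ≤ κ := by rw [hκ]; exact Nat.le_ceil θ
  have hLR : (2 : ℝ) ≤ L := by exact_mod_cast hL
  obtain ⟨C, hC⟩ := fracX (2 * (κ + 1))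
  obtain ⟨R, hR⟩ : ∃ R, R = 2 * L * C + 1 := ⟨_, rfl⟩
  obtain ⟨η, hη⟩ : ∃ η : ℝ, η = ε / (4 * θ * L) := ⟨_, rfl⟩
  have hη0 : 0 < η := by rw [hη]; positivity
  obtain ⟨D₀, P₀, hrel⟩ := Pool.Agent.K9h9.RD.rel_r (θ * (1 + η)) (ε / 2) (by positivity) (by positivity)
    L R (4 * κ) (by omega)
  obtain ⟨N₁, hN₁⟩ : ∃ N₁ : ℕ, N₁ = ⌈((R : ℝ) ^ 3) ^ (1 / η)⌉₊ := ⟨_, rfl⟩
  refine ⟨(D₀ + N₁ + 3) * R ^ 3, P₀ + 1, ?_⟩
  intro Y y z p q r D u w H s hD hp hr hLr hrq hDx hy hz hu hw hwD h1 h2' hne1 hne2 heq hH hqs hHs hx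
  have hR1 : 1 ≤ R := by omega
  have hR31 : 1 ≤ R ^ 3 := Nat.one_le_pow _ _ hR1
  have hD3 : 3 ≤ D := by nlinarith
  have hD2 : 2 ≤ D := by omega
  have hD0 : 0 < D := by omega
  have hp0 : p ≠ 0 := by omega
  have hDR : (3 : ℝ) ≤ D := by exact_mod_cast hD3
  have hD0R : (0 : ℝ) < D := by linarith
  have hr0 : 0 < r := hr.pos
  have hq0 : 0 < q := by
    rcases Nat.eq_zero_or_pos q with h | h
    · exfalso
      apply hrq
      rw [h]
      exact dvd_zero r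
    · exact h
  have hcop : Nat.Coprime q r := by
    rw [Nat.coprime_comm]
    exact (Nat.Prime.coprime_iff_not_dvd hr).mpr hrq
  have hDpow : ∀ u v : ℝ, u ≤ v → (D : ℝ) ^ u ≤ (D : ℝ) ^ v := fun u v h =>
    Real.rpow_le_rpow_of_exponent_le (by linarith) h
  obtain ⟨E, hED, hDrE, hDE2, h2⟩ := zcongX hr hD3 ((dvd_pow_self D hp0).trans hDx) hwD heq h1 h2'
  have hE0 : 0 < E := by
    rcases Nat.eq_zero_or_pos E with h | h
    · rw [h] at hDE2
      omega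
    · exact h
  have hE2 : 2 ≤ E := by
    by_contra hcon
    have : E = 1 := by omega
    rw [this] at hDE2
    omega
  have hEDZ : (E : ℤ) ∣ D := by exact_mod_cast hED
  have h1E : (E : ℤ) ∣ y * u ^ r - w ^ r ∨ (E : ℤ) ∣ y * u ^ r + w ^ r := by
    rcases h1 with h | h
    · exact Or.inl (hEDZ.trans h)
    · exact Or.inr (hEDZ.trans h)
  have hwE : Nat.Coprime w E := hwD.coprime_dvd_right hED
  have hEx : E ^ p ∣ Y := (pow_dvd_pow_of_dvd hED p).trans hDx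
  have hs1 := sq_modEq_of_pm (D := E) (a := y * u ^ r) (b := w ^ r) (by push_cast; exact h1E)
  have hs2 := sq_modEq_of_pm (D := E) (a := z * u ^ q) (b := w ^ q) (by push_cast; exact h2)
  have hyH : y * u ^ r ≤ H := by rw [hH]; exact le_max_left _ _
  have hwH : w ^ r ≤ H := by rw [hH]; exact le_max_right _ _
  have hH1 : 1 ≤ H := by
    have : 0 < w ^ r := by positivity
    omega
  have hH1R : (1 : ℝ) ≤ H := by exact_mod_cast hH1
  have hH0R : (0 : ℝ) < H := by linarith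
  have hEH : E ≤ H ^ 2 := by
    have h3 := lt_max_of_modEq hs1 (fun h => hne1 (Nat.pow_left_injective two_ne_zero h))
      (by positivity) (by positivity)
    rw [max_sq, ← hH] at h3
    exact h3.le
  have hw1R : (1 : ℝ) ≤ w := by exact_mod_cast hw
  have hrs : (0 : ℝ) ≤ r * (s - q) := mul_nonneg (Nat.cast_nonneg _) (by linarith)
  have hws1 : (1 : ℝ) ≤ (w : ℝ) ^ (r * (s - q)) := Real.one_le_rpow hw1R hrs
  have hHq : (H : ℝ) ^ q ≤ (D : ℝ) ^ (θ * p) := by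
    refine le_trans ?_ hHs
    rw [← Real.rpow_natCast]
    exact Real.rpow_le_rpow_of_exponent_le hH1R hqs
  have hxD : (Y : ℝ) * u ^ (q * r) ≤ (D : ℝ) ^ (θ * p) := by
    refine le_trans ?_ (hx.trans hHs)
    exact le_mul_of_one_le_right (by positivity) hws1
  have hDκ : (D : ℝ) ^ (θ * p) ≤ ((D ^ (κ * p) : ℕ) : ℝ) := by
    push_cast
    rw [← Real.rpow_natCast]
    apply hDpow
    push_cast
    exact mul_le_mul_of_nonneg_right hθκ (Nat.cast_nonneg _)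
  have hzsum : (z * u ^ q) ^ r ≤ Y * u ^ (q * r) + H ^ q := by
    have h3 : (z * u ^ q) ^ r = z ^ r * u ^ (q * r) := by rw [mul_pow, ← pow_mul]
    have h4 : (y * u ^ r) ^ q = y ^ q * u ^ (q * r) := by rw [mul_pow, ← pow_mul, mul_comm r q]
    calc (z * u ^ q) ^ r = z ^ r * u ^ (q * r) := h3
      _ ≤ (Y + y ^ q) * u ^ (q * r) := Nat.mul_le_mul_right _ heq.le
      _ = Y * u ^ (q * r) + (y * u ^ r) ^ q := by rw [h4]; ring
      _ ≤ _ := Nat.add_le_add_left (Nat.pow_le_pow_left hyH q) _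
  have hzR : ((z : ℝ) * u ^ q) ^ r ≤ 2 * (D : ℝ) ^ (θ * p) := by
    have h3 : ((z : ℝ) * u ^ q) ^ r ≤ (Y : ℝ) * u ^ (q * r) + (H : ℝ) ^ q := by exact_mod_cast hzsum
    linarith
  have hHqκ : H ^ q ≤ D ^ (κ * p) := by exact_mod_cast hHq.trans hDκ
  by_contra hcon
  push Not at hcon
  -- the bound for `r`
  have hLr' : (L : ℝ) ≤ r := by exact_mod_cast hLr
  have hrpos : (0 : ℝ) < r := by exact_mod_cast hr0
  have hDκE : ∀ k : ℕ, D ^ k ≤ E ^ (2 * k) := by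
    intro k
    calc D ^ k ≤ (E ^ 2) ^ k := Nat.pow_le_pow_left hDE2 k
      _ = _ := by rw [← pow_mul]
  have hrR : r ≤ R := by
    have h3 := hC Y y z p q r E u w hE2 hEx hy hz hu hw hwE hne1 hne2 hs1 hs2 hq0 hr0 hcop heq (by
      rw [← hH]
      refine (hHqκ.trans (hDκE _)).trans (Nat.pow_le_pow_right hE0 ?_)
      nlinarith) (by
      have h4 : ((z : ℝ) * u ^ q) ^ r ≤ ((2 * D ^ (κ * p) : ℕ) : ℝ) := by
        push_cast at hDκ ⊢
        linarith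
      have h5 : (z * u ^ q) ^ r ≤ 2 * D ^ (κ * p) := by exact_mod_cast h4
      calc (z * u ^ q) ^ r ≤ 2 * D ^ (κ * p) := h5
        _ ≤ D ^ p * D ^ (κ * p) := by
            apply Nat.mul_le_mul_right
            calc 2 ≤ D := hD2
              _ = D ^ 1 := (pow_one D).symm
              _ ≤ D ^ p := Nat.pow_le_pow_right hD0 (by omega)
        _ = D ^ ((κ + 1) * p) := by rw [← pow_add]; congr 1; ring
        _ ≤ E ^ (2 * ((κ + 1) * p)) := hDκE _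
        _ = _ := by congr 1; ring)
    rw [← hH] at h3
    have h4 : H < D ^ L := by
      have h5 : (H : ℝ) < (D : ℝ) ^ (L : ℝ) := by
        refine hcon.trans_le (hDpow _ _ ?_)
        have h6 : 0 ≤ θ * (L - 1) / (2 * (r : ℝ)) := by
          apply div_nonneg _ (by linarith)
          exact mul_nonneg (by linarith) (by linarith)
        nlinarith
      rw [Real.rpow_natCast] at h5
      exact_mod_cast h5
    have h5 : E ^ r ≤ E ^ (2 * L * C) := by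
      rw [pow_mul]
      exact h3.trans (Nat.pow_le_pow_left (h4.le.trans (hDκE L)) C)
    have h6 := (Nat.pow_le_pow_iff_right (by omega)).mp h5
    omega
  have hq2 : q ≤ 4 * κ * p := by
    have h3 : E ^ q ≤ E ^ (4 * κ * p) := by
      calc E ^ q ≤ (H ^ 2) ^ q := Nat.pow_le_pow_left hEH q
        _ = (H ^ q) ^ 2 := by rw [← pow_mul, ← pow_mul, mul_comm]
        _ ≤ (E ^ (2 * (κ * p))) ^ 2 := Nat.pow_le_pow_left (hHqκ.trans (hDκE _)) 2
        _ = _ := by rw [← pow_mul]; congr 1; ring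
    exact (Nat.pow_le_pow_iff_right (by omega)).mp h3
  -- the moduli
  obtain ⟨D', D₂, hD₂E, hD'D₂, hED', hmod⟩ := choose_moduli hr hE0.ne'
  have hDR3 : D ≤ R ^ 3 * D' := by
    calc D ≤ r * E := hDrE
      _ ≤ r * (r ^ 2 * D') := Nat.mul_le_mul_left _ hED'
      _ = r ^ 3 * D' := by ring
      _ ≤ _ := Nat.mul_le_mul_right _ (Nat.pow_le_pow_left hrR 3)
  have hD'N : D₀ + N₁ + 3 ≤ D' := by
    have h3 : (D₀ + N₁ + 3) * R ^ 3 ≤ D' * R ^ 3 := by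
      rw [mul_comm D']
      exact hD.trans hDR3
    exact Nat.le_of_mul_le_mul_right h3 hR31
  have hD'R : (3 : ℝ) ≤ D' := by exact_mod_cast (show 3 ≤ D' by omega)
  have hD'0R : (0 : ℝ) < D' := by linarith
  have hR30 : (0 : ℝ) < (R : ℝ) ^ 3 := by positivity
  have hD'η : (R : ℝ) ^ 3 ≤ (D' : ℝ) ^ η := by
    have h3 : ((R : ℝ) ^ 3) ^ (1 / η) ≤ D' := by
      have h4 : ((R : ℝ) ^ 3) ^ (1 / η) ≤ N₁ := by rw [hN₁]; exact Nat.le_ceil _
      have h5 : (N₁ : ℝ) ≤ D' := by exact_mod_cast (show N₁ ≤ D' by omega)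
      exact h4.trans h5
    have h4 := Real.rpow_le_rpow (by positivity) h3 hη0.le
    rwa [← Real.rpow_mul hR30.le, one_div_mul_cancel hη0.ne', Real.rpow_one] at h4
  have hlogDD' : Real.log D ≤ (1 + η) * Real.log D' := by
    have h3 : (D : ℝ) ≤ (D' : ℝ) ^ (1 + η) := by
      calc (D : ℝ) ≤ (R : ℝ) ^ 3 * D' := by exact_mod_cast hDR3
        _ ≤ (D' : ℝ) ^ η * D' := mul_le_mul_of_nonneg_right hD'η hD'0R.le
        _ = _ := by rw [Real.rpow_add hD'0R, Real.rpow_one, mul_comm]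
    have h4 := Real.log_le_log hD0R h3
    rwa [Real.log_rpow hD'0R] at h4
  have hD'H : (D' : ℝ) ≤ (H : ℝ) ^ 2 := by
    have h3 : D' ≤ E := Nat.le_of_dvd hE0 (hD'D₂.trans hD₂E)
    exact_mod_cast h3.trans hEH
  have hD₂3 : 3 ≤ D₂ := by
    have h3 : 0 < D₂ := Nat.pos_of_dvd_of_pos hD₂E hE0
    have := Nat.le_of_dvd h3 hD'D₂
    omega
  have hD₂D : D₂ ∣ D := hD₂E.trans hED
  have hD₂DZ : (D₂ : ℤ) ∣ D := by exact_mod_cast hD₂D
  have hD₂EZ : (D₂ : ℤ) ∣ E := by exact_mod_cast hD₂E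
  have hD'D₂Z : (D' : ℤ) ∣ D₂ := by exact_mod_cast hD'D₂
  have hwD₂Z : IsCoprime (D₂ : ℤ) (w : ℤ) := by
    rw [Nat.isCoprime_iff_coprime, Nat.coprime_comm]
    exact hwD.coprime_dvd_right hD₂D
  have hwDZ : IsCoprime (D' : ℤ) (w : ℤ) := IsCoprime.of_isCoprime_of_dvd_left hwD₂Z hD'D₂Z
  obtain ⟨b, B0, X, A, hbabs, hB0abs, hXabs, hAabs, hDXA, hDb, hpow⟩ :=
    exists_signsX hr hrq heq hD₂3 ((pow_dvd_pow_of_dvd hD₂D p).trans hDx) hp0 hwD₂Z (by
      rcases h1 with h | h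
      · exact Or.inl (hD₂DZ.trans h)
      · exact Or.inr (hD₂DZ.trans h)) (by
      rcases h2 with h | h
      · exact Or.inl (hD₂EZ.trans h)
      · exact Or.inr (hD₂EZ.trans h))
  have hb : b ≠ 0 := by
    apply abs_pos.mp
    rw [hbabs]
    positivity
  have hB0 : B0 ≠ 0 := by
    apply abs_pos.mp
    rw [hB0abs]
    positivity
  have hX : X ≠ 0 := by
    apply abs_pos.mp
    rw [hXabs]
    positivity
  have hA : A ≠ 0 := by
    apply abs_pos.mp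
    rw [hAabs]
    positivity
  have hXA : X ≠ A := by
    intro h
    rw [h, hAabs] at hXabs
    exact hne1 (by exact_mod_cast hXabs.symm)
  have hDA : IsCoprime (D' : ℤ) A := by
    rw [← IsCoprime.abs_right_iff, hAabs]
    exact hwDZ.pow_right
  have hDB : IsCoprime (D' : ℤ) B0 := by
    rw [← IsCoprime.abs_right_iff, hB0abs]
    exact hwDZ.pow_right
  have hbR : |(b : ℝ)| = z * u ^ q := by exact_mod_cast congrArg (Int.cast (R := ℝ)) hbabs
  have hB0R : |(B0 : ℝ)| = w ^ q := by exact_mod_cast congrArg (Int.cast (R := ℝ)) hB0abs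
  have hXR : |(X : ℝ)| = y * u ^ r := by exact_mod_cast congrArg (Int.cast (R := ℝ)) hXabs
  have hAR : |(A : ℝ)| = w ^ r := by exact_mod_cast congrArg (Int.cast (R := ℝ)) hAabs
  have hdvdN : ∀ K (t : ℕ → ℕ → ℤ), Van r q L K p t → ∀ k,
      (D' : ℤ) ^ (p - k) ∣ Nk r q L K t b B0 X A k := by
    intro K t ht k
    rcases hmod with ⟨h3, h4⟩ | ⟨h3, h4⟩
    · have hDr : IsCoprime (D' : ℤ) (r : ℤ) := by
        rw [Nat.isCoprime_iff_coprime, Nat.coprime_comm]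
        exact (Nat.Prime.coprime_iff_not_dvd hr).mpr h4
      rw [h3] at hDXA hDb hpow
      exact dvd_Nk_nil hr ht ((hDr.mul_right hDA).mul_right hDB) hDXA hpow
        ⟨1, by rw [pow_one]; exact hDb⟩ k
    · have h5 : (D₂ : ℤ) = (r : ℤ) ^ 2 * D' := by rw [h3]; push_cast; rfl
      rw [h5] at hDXA hDb hpow
      refine dvd_Nk_r hr ht h4 hDA hDB hDXA (Dvd.dvd.trans ?_ hDb) (Dvd.dvd.trans ?_ hpow) k
      · exact mul_dvd_mul_right (Dvd.intro_left _ (by ring)) _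
      · rw [mul_pow, ← pow_mul]
        exact mul_dvd_mul_right (dvd_pow_self _ (by omega)) _
  have hlogH0 : 0 < Real.log H := by
    have h3 : (1 : ℝ) < H := by
      have h4 : 1 < H := by
        by_contra h5
        have h6 : H = 1 := by omega
        rw [h6] at hEH
        omega
      exact_mod_cast h4
    exact Real.log_pos h3
  have hlogD0 : 0 < Real.log D := Real.log_pos (by linarith)
  -- the conclusion
  suffices hfin' : (L * (1 - (θ * (1 + η)) * (L - 1) / (2 * r)) - ε / 2) * Real.log D' ≤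
      Real.log H by
    have hfin := fin_real hLR hLr' hθ hε hη hlogDD' (Real.log_pos (by linarith : (1 : ℝ) < D'))
      hlogD0 hlogH0.le hfin'
    have h3 := Real.log_lt_log hH0R hcon
    rw [Real.log_rpow hD0R] at h3
    linarith
  have hs0 : 0 ≤ s := le_trans (Nat.cast_nonneg q) hqs
  obtain ⟨lam, hlamdef⟩ : ∃ lam : ℝ, lam = s / r := ⟨_, rfl⟩
  have hlam0 : 0 ≤ lam := by rw [hlamdef]; positivity
  have hlamr : lam * r = s := by
    rw [hlamdef]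
    exact div_mul_cancel₀ _ hrpos.ne'
  obtain ⟨σ, hσ⟩ : ∃ σ : ℕ → ℕ, σ = fun i : ℕ => ⌈lam * (i : ℝ)⌉₊ := ⟨_, rfl⟩
  have hσi : ∀ i, lam * i ≤ σ i := by
    intro i
    rw [hσ]
    exact Nat.le_ceil _
  have hσr : ∀ i, q * i ≤ r * σ i := by
    intro i
    have h4 : (q : ℝ) * i ≤ r * σ i := by
      calc (q : ℝ) * i ≤ s * i := mul_le_mul_of_nonneg_right hqs (Nat.cast_nonneg _)
        _ = r * (lam * i) := by
            rw [← hlamr]
            ring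
        _ ≤ _ := mul_le_mul_of_nonneg_left (hσi i) hrpos.le
    exact_mod_cast h4
  have hw0R : (0 : ℝ) < w := by linarith
  have hwHr : (w : ℝ) ^ (r : ℝ) ≤ H := by
    rw [Real.rpow_natCast]
    exact_mod_cast hwH
  -- the size of `z u ^ q w ^ (s - q)`
  have hzlam : (z : ℝ) * u ^ q * (w : ℝ) ^ (s - q) ≤ 2 * (H : ℝ) ^ lam := by
    refine le_of_pow_le_pow_left₀ hr0.ne' (by positivity) ?_
    have h3 : ((z : ℝ) * u ^ q * (w : ℝ) ^ (s - q)) ^ r =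
        ((z : ℝ) * u ^ q) ^ r * (w : ℝ) ^ (r * (s - q)) := by
      rw [mul_pow, ← Real.rpow_natCast ((w : ℝ) ^ (s - q)), ← Real.rpow_mul hw0R.le, mul_comm (s - q)]
    have h4 : (2 * (H : ℝ) ^ lam) ^ r = 2 ^ r * (H : ℝ) ^ s := by
      rw [mul_pow, ← Real.rpow_natCast ((H : ℝ) ^ lam), ← Real.rpow_mul hH0R.le, hlamr]
    rw [h3, h4]
    have h5 : ((z : ℝ) * u ^ q) ^ r ≤ (Y : ℝ) * u ^ (q * r) + (H : ℝ) ^ q := by exact_mod_cast hzsum
    have h6 : (w : ℝ) ^ (r * (s - q)) ≤ (H : ℝ) ^ (s - q) := by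
      rw [Real.rpow_mul hw0R.le]
      exact Real.rpow_le_rpow (by positivity) hwHr (by linarith)
    have h7 : (H : ℝ) ^ q * (H : ℝ) ^ (s - q) = (H : ℝ) ^ s := by
      rw [← Real.rpow_natCast (H : ℝ) q, ← Real.rpow_add hH0R]
      congr 1
      ring
    have h8 : (2 : ℝ) ≤ 2 ^ r := le_self_pow₀ (by norm_num) hr0.ne'
    calc ((z : ℝ) * u ^ q) ^ r * (w : ℝ) ^ (r * (s - q))
        ≤ ((Y : ℝ) * u ^ (q * r) + (H : ℝ) ^ q) * (w : ℝ) ^ (r * (s - q)) := by gcongr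
      _ = (Y : ℝ) * u ^ (q * r) * (w : ℝ) ^ (r * (s - q)) +
          (H : ℝ) ^ q * (w : ℝ) ^ (r * (s - q)) := by ring
      _ ≤ (H : ℝ) ^ s + (H : ℝ) ^ q * (H : ℝ) ^ (s - q) := by gcongr
      _ = 2 * (H : ℝ) ^ s := by rw [h7]; ring
      _ ≤ _ := by gcongr
  -- one power
  have hone : ∀ i < L, ((z : ℝ) * u ^ q) ^ i * (w : ℝ) ^ (r * σ i - q * i) ≤
      2 ^ L * (H : ℝ) ^ (σ i) := by
    intro i hi
    have h3 : (w : ℝ) ^ (r * σ i - q * i) =
        ((w : ℝ) ^ (s - q)) ^ i * (w : ℝ) ^ ((r : ℝ) * (σ i - lam * i)) := by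
      rw [← Real.rpow_natCast (w : ℝ), ← Real.rpow_natCast ((w : ℝ) ^ (s - q)),
        ← Real.rpow_mul hw0R.le, ← Real.rpow_add hw0R]
      congr 1
      rw [Nat.cast_sub (hσr i)]
      push_cast
      rw [← hlamr]
      ring
    have h4 : (w : ℝ) ^ ((r : ℝ) * (σ i - lam * i)) ≤ (H : ℝ) ^ ((σ i : ℝ) - lam * i) := by
      rw [Real.rpow_mul hw0R.le]
      exact Real.rpow_le_rpow (by positivity) hwHr (by linarith [hσi i])
    calc ((z : ℝ) * u ^ q) ^ i * (w : ℝ) ^ (r * σ i - q * i)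
        = ((z : ℝ) * u ^ q * (w : ℝ) ^ (s - q)) ^ i * (w : ℝ) ^ ((r : ℝ) * (σ i - lam * i)) := by
          rw [h3, mul_pow ((z : ℝ) * u ^ q)]
          ring
      _ ≤ (2 * (H : ℝ) ^ lam) ^ i * (H : ℝ) ^ ((σ i : ℝ) - lam * i) := by gcongr
      _ = 2 ^ i * (H : ℝ) ^ (σ i) := by
          rw [mul_pow, ← Real.rpow_natCast ((H : ℝ) ^ lam), ← Real.rpow_mul hH0R.le, mul_assoc,
            ← Real.rpow_add hH0R, ← Real.rpow_natCast (H : ℝ) (σ i)]
          congr 2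
          ring
      _ ≤ _ := by
          have h7 : (2 : ℝ) ^ i ≤ 2 ^ L := pow_le_pow_right₀ (by norm_num) hi.le
          gcongr
  refine hrel b B0 X A r q p D' σ H lam (by omega) (by omega) hr hLr hrR hrq hq2 hb hB0 hX hA hXA
    hdvdN hD'H hH1R hlam0 ?_ ?_ ?_
  · intro i _
    rw [hσ]
    exact (Nat.ceil_lt_add_one (by positivity)).le
  · rw [le_div_iff₀ hrpos]
    have h3 := Real.log_le_log (by positivity) hHs
    rw [Real.log_rpow hH0R, Real.log_rpow hD0R] at h3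
    calc lam * Real.log H * r = s * Real.log H := by
          rw [← hlamr]
          ring
      _ ≤ θ * p * Real.log D := h3
      _ ≤ θ * p * ((1 + η) * Real.log D') := by gcongr
      _ = _ := by ring
  · intro n
    refine ⟨(w : ℤ) ^ (q * (L - 1)), by positivity, hwDZ.pow_right, ?_⟩
    intro i hi j hij
    have hij2 : q * i ≤ r * (n - j) := by
      refine (hσr i).trans (Nat.mul_le_mul_left _ ?_)
      omega
    have h7 : q * (L - 1) = q * (L - 1 - i) + q * i := by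
      rw [← mul_add]
      congr 1
      omega
    constructor
    · rw [← dvd_abs, abs_mul, abs_pow, abs_pow, hB0abs, hAabs, ← pow_mul, ← pow_mul, ← pow_add]
      apply pow_dvd_pow
      omega
    rw [hbR, hB0R, hXR, hAR]
    have h4 : ((z : ℝ) * u ^ q) ^ i * (y * u ^ r) ^ j * (w : ℝ) ^ (r * (n - j) - q * i) ≤
        2 ^ L * (H : ℝ) ^ n := by
      have e1 : r * (n - j) - q * i = (r * σ i - q * i) + r * (n - j - σ i) := by
        have e2 : r * (n - j) = r * σ i + r * (n - j - σ i) := by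
          rw [← mul_add]
          congr 1
          omega
        have := hσr i
        omega
      have e3 : ((y : ℝ) * u ^ r) ^ j ≤ (H : ℝ) ^ j := by
        apply pow_le_pow_left₀ (by positivity)
        exact_mod_cast hyH
      have e4 : ((w : ℝ) ^ r) ^ (n - j - σ i) ≤ (H : ℝ) ^ (n - j - σ i) := by
        apply pow_le_pow_left₀ (by positivity)
        exact_mod_cast hwH
      calc ((z : ℝ) * u ^ q) ^ i * (y * u ^ r) ^ j * (w : ℝ) ^ (r * (n - j) - q * i)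
          = (((z : ℝ) * u ^ q) ^ i * (w : ℝ) ^ (r * σ i - q * i)) * ((y * u ^ r) ^ j *
            ((w : ℝ) ^ r) ^ (n - j - σ i)) := by
            rw [e1, pow_add, ← pow_mul]
            ring
        _ ≤ (2 ^ L * (H : ℝ) ^ (σ i)) * ((H : ℝ) ^ j * (H : ℝ) ^ (n - j - σ i)) := by
            have := hone i hi
            gcongr
        _ = 2 ^ L * (H : ℝ) ^ n := by
            rw [mul_assoc, ← pow_add, ← pow_add]
            congr 2
            omega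
    have h5 : ((z : ℝ) * u ^ q) ^ i * ((w : ℝ) ^ q) ^ (L - 1 - i) *
        ((y * u ^ r) ^ j * ((w : ℝ) ^ r) ^ (n - j)) = (w : ℝ) ^ (q * (L - 1)) *
        (((z : ℝ) * u ^ q) ^ i * (y * u ^ r) ^ j * (w : ℝ) ^ (r * (n - j) - q * i)) := by
      have h6 : ((w : ℝ) ^ q) ^ (L - 1 - i) * ((w : ℝ) ^ r) ^ (n - j) =
          (w : ℝ) ^ (q * (L - 1)) * (w : ℝ) ^ (r * (n - j) - q * i) := by
        rw [← pow_mul, ← pow_mul, ← pow_add, ← pow_add]
        congr 1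
        omega
      linear_combination (((z : ℝ) * u ^ q) ^ i * (y * u ^ r) ^ j) * h6
    rw [h5]
    have h6 : |(((w : ℤ) ^ (q * (L - 1)) : ℤ) : ℝ)| = (w : ℝ) ^ (q * (L - 1)) := by
      push_cast
      exact abs_of_nonneg (by positivity)
    rw [h6]
    exact mul_le_mul_of_nonneg_left h4 (by positivity)

end Pool.Agent.K9h9.XR
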