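import Mathlib
import Pool.Agent.K9h9.XR.Digits

/-!
# The congruence for the third base, and the reduced equation
-/

set_option autoImplicit false

namespace Pool.Agent.K9h9.XR

open Finset Polynomial Pool.Agent.K9h9.CB Pool.Agent.K9h9.PB Pool.Agent.K9h9.RD

/-- square roots of one modulo a power of a prime `≢ 1 (mod 4)` -/
lemma sq_case {p k m : ℕ} (hp : p.Prime) (hp4 : p % 4 ≠ 1) (hm : m = p ^ k) (hm3 : 3 ≤ m) {z e : ℤ}
    (he : e = 1 ∨ e = -1) (h : (m : ℤ) ∣ z ^ 2 - e) :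
    ∃ E : ℕ, E ∣ m ∧ m ≤ 2 * E ∧ m ≤ E ^ 2 ∧ ((E : ℤ) ∣ z - 1 ∨ (E : ℤ) ∣ z + 1) := by
  have hk : k ≠ 0 := by
    rintro rfl
    rw [pow_zero] at hm
    omega
  rcases hp.eq_two_or_odd with h2 | hodd
  · -- `p = 2`
    subst h2
    obtain ⟨k', rfl⟩ : ∃ k', k = k' + 2 := by
      rcases k with _ | _ | k'
      · exact absurd rfl hk
      · rw [zero_add, pow_one] at hm
        omega
      · exact ⟨k', rfl⟩
    have hm4 : (4 : ℤ) ∣ m := by
      rw [hm]
      push_cast
      exact ⟨2 ^ k', by ring⟩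
    have h4 : (4 : ℤ) ∣ z ^ 2 - e := hm4.trans h
    obtain ⟨j, hj | hj⟩ := Int.even_or_odd' z
    · exfalso
      rw [hj] at h4
      have h5 : (4 : ℤ) ∣ e := by
        have h6 : (4 : ℤ) ∣ (2 * j) ^ 2 := ⟨j ^ 2, by ring⟩
        have := dvd_sub h6 h4
        rwa [sub_sub_cancel] at this
      rcases he with h6 | h6 <;> rw [h6] at h5 <;> omega
    · have he1 : e = 1 := by
        rcases he with h6 | h6
        · exact h6
        · exfalso
          rw [hj, h6] at h4
          have h7 : (4 : ℤ) ∣ 2 := by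
            have h8 : (4 : ℤ) ∣ 4 * (j ^ 2 + j) := dvd_mul_right _ _
            have h9 := dvd_sub h4 h8
            have h10 : (2 * j + 1) ^ 2 - -1 - 4 * (j ^ 2 + j) = 2 := by ring
            rwa [h10] at h9
          omega
      rw [he1, hj] at h
      have h5 : (2 : ℤ) ^ k' ∣ j * (j + 1) := by
        rw [hm] at h
        push_cast at h
        have h6 : (2 * j + 1) ^ 2 - 1 = 4 * (j * (j + 1)) := by ring
        have h7 : (2 : ℤ) ^ (k' + 2) = 4 * 2 ^ k' := by ring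
        rw [h6, h7] at h
        exact (mul_dvd_mul_iff_left (by norm_num)).mp h
      refine ⟨2 ^ (k' + 1), ?_, ?_, ?_, ?_⟩
      · rw [hm]
        exact pow_dvd_pow _ (by omega)
      · rw [hm]
        apply le_of_eq
        ring
      · rw [hm, ← pow_mul]
        exact Nat.pow_le_pow_right (by norm_num) (by omega)
      · have hp2 : Prime (2 : ℤ) := Int.prime_two
        rcases Int.even_or_odd j with h6 | h6
        · left
          have h7 : ¬ (2 : ℤ) ∣ j + 1 := by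
            rw [← even_iff_two_dvd, Int.not_even_iff_odd]
            exact h6.add_one
          have h8 := hp2.pow_dvd_of_dvd_mul_right k' h7 h5
          rw [hj]
          push_cast
          have h9 : (2 : ℤ) * j + 1 - 1 = 2 * j := by ring
          rw [h9, pow_succ']
          exact mul_dvd_mul_left _ h8
        · right
          have h7 : ¬ (2 : ℤ) ∣ j := by
            rw [← even_iff_two_dvd, Int.not_even_iff_odd]
            exact h6
          have h8 := hp2.pow_dvd_of_dvd_mul_left k' h7 h5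
          rw [hj]
          push_cast
          have h9 : (2 : ℤ) * j + 1 + 1 = 2 * (j + 1) := by ring
          rw [h9, pow_succ']
          exact mul_dvd_mul_left _ h8
  · -- `p` odd
    have hp3 : p % 4 = 3 := by omega
    have hpm : (p : ℤ) ∣ m := by
      rw [hm]
      push_cast
      exact dvd_pow_self _ hk
    have he1 : e = 1 := by
      rcases he with h6 | h6
      · exact h6
      · exfalso
        have := Fact.mk hp
        have h7 : IsSquare (-1 : ZMod p) := by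
          refine ⟨(z : ZMod p), ?_⟩
          have h8 := (ZMod.intCast_zmod_eq_zero_iff_dvd (z ^ 2 - e) p).mpr (hpm.trans h)
          rw [h6] at h8
          push_cast at h8
          linear_combination -h8
        rw [ZMod.exists_sq_eq_neg_one_iff] at h7
        exact h7 hp3
    rw [he1] at h
    refine ⟨m, dvd_rfl, by omega, Nat.le_self_pow two_ne_zero _, ?_⟩
    have hpZ : Prime (p : ℤ) := Nat.prime_iff_prime_int.mp hp
    have h5 : (p : ℤ) ^ k ∣ (z - 1) * (z + 1) := by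
      have h6 : (z - 1) * (z + 1) = z ^ 2 - 1 := by ring
      rw [h6]
      rw [hm] at h
      push_cast at h
      exact h
    by_cases h6 : (p : ℤ) ∣ z + 1
    · right
      have h7 : ¬ (p : ℤ) ∣ z - 1 := by
        intro h8
        have h9 := dvd_sub h6 h8
        have h10 : z + 1 - (z - 1) = 2 := by ring
        rw [h10] at h9
        have h11 := Int.le_of_dvd (by norm_num) h9
        have := hp.two_le
        omega
      have h8 := hpZ.pow_dvd_of_dvd_mul_left k h7 h5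
      rw [hm]
      push_cast
      exact h8
    · left
      have h8 := hpZ.pow_dvd_of_dvd_mul_right k h6 h5
      rw [hm]
      push_cast
      exact h8

/-- the condition on the prime `l`, the modulus and the third base -/
def Cond (m z l : ℕ) : Prop :=
  (l ≠ 2 ∧ ∀ ℓ : ℕ, ℓ.Prime → ℓ ∣ m → ¬ l ∣ ℓ - 1) ∨
    (l = 2 ∧ ∃ p k : ℕ, p.Prime ∧ p % 4 ≠ 1 ∧ m = p ^ k) ∨
    ((m : ℤ) ∣ z - 1 ∨ (m : ℤ) ∣ z + 1)

lemma exists_E {Y n z Q l m : ℕ} (hl : l.Prime) (hm3 : 3 ≤ m) (hmY : m ∣ Y) (heq : EqX Y n z Q l)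
    (hn : (m : ℤ) ∣ n - 1 ∨ (m : ℤ) ∣ n + 1) (hz : Cond m z l) :
    ∃ E : ℕ, E ∣ m ∧ m ≤ l * E ∧ m ≤ E ^ 2 ∧ ((E : ℤ) ∣ z - 1 ∨ (E : ℤ) ∣ z + 1) := by
  rcases hz with hz | ⟨hl2, p, k, hp, hp4, hm⟩ | hz
  · have h1 := zcongX (Y := Y) (y := n) (z := z) (q := Q) (r := l) (D := m) (u := 1) (w := 1) hl hm3 hmY
      (Nat.coprime_one_left m) heq (by simpa using hn) (Or.inl hz)
    simpa using h1
  · obtain ⟨s, t, hs, ht, hst⟩ := heq.signs
    obtain ⟨e, he, hne⟩ : ∃ e : ℤ, (e = 1 ∨ e = -1) ∧ (m : ℤ) ∣ n - e := by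
      rcases hn with h | h
      · exact ⟨1, Or.inl rfl, h⟩
      · exact ⟨-1, Or.inr rfl, by rw [sub_neg_eq_add]; exact h⟩
    have h1 : (m : ℤ) ∣ (z : ℤ) ^ 2 - t * e ^ Q := by
      have h2 : (z : ℤ) ^ 2 - t * e ^ Q = s * Y + t * (n ^ Q - e ^ Q) := by
        rw [← hl2, hst]
        ring
      rw [h2]
      exact dvd_add ((Int.natCast_dvd_natCast.mpr hmY).mul_left _)
        ((hne.trans (sub_dvd_pow_sub_pow _ _ Q)).mul_left _)
    rw [hl2]
    exact sq_case hp hp4 hm hm3 (pm_mul_pow ht he Q) h1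
  · exact ⟨m, dvd_rfl, Nat.le_mul_of_pos_left _ hl.pos, Nat.le_self_pow two_ne_zero _, hz⟩

/-- The equation in terms of `F = f(0) f`. -/
lemma reduceX {m Y z Q l n : ℕ} {v : ℤ} (hl : l.Prime) (hm3 : 3 ≤ m) (hmY : m ∣ Y)
    (hv1 : (m : ℤ) ∣ v - 1) (hn : n = v.natAbs) (heq : EqX Y n z Q l)
    (hz' : (m : ℤ) ∣ z - 1 ∨ (m : ℤ) ∣ z + 1) :
    ∃ b s : ℤ, (s = 1 ∨ s = -1) ∧ |b| = z ∧ (m : ℤ) ∣ b - 1 ∧ b ^ l = s * Y + v ^ Q := by
  obtain ⟨s, t, hs, ht, hst⟩ := heq.signs
  obtain ⟨e, he, hne⟩ : ∃ e : ℤ, (e = 1 ∨ e = -1) ∧ (n : ℤ) = e * v := by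
    rcases Int.natAbs_eq v with h | h
    · exact ⟨1, Or.inl rfl, by rw [hn, one_mul, ← h]⟩
    · refine ⟨-1, Or.inr rfl, ?_⟩
      rw [neg_one_mul, hn]
      linarith
  have hvQ : (m : ℤ) ∣ v ^ Q - 1 := by
    have := hv1.trans (sub_dvd_pow_sub_pow v 1 Q)
    rwa [one_pow] at this
  have hmP : (m : ℤ) ∣ (Y : ℤ) := Int.natCast_dvd_natCast.mpr hmY
  obtain ⟨E, hE⟩ : ∃ E : ℤ, E = t * e ^ Q := ⟨_, rfl⟩
  have hE1 : E = 1 ∨ E = -1 := by rw [hE]; exact pm_mul_pow ht he Q
  have hzE : (z : ℤ) ^ l = s * Y + E * v ^ Q := by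
    rw [hst, hne, mul_pow, hE]
    ring
  have hEE : E * E = 1 := by rcases hE1 with h | h <;> rw [h] <;> norm_num
  have hEs : E * s = 1 ∨ E * s = -1 := by
    rcases hE1 with h | h <;> rcases hs with h' | h' <;> rw [h, h'] <;> norm_num
  have hEabs : |E| = 1 := by rcases hE1 with h | h <;> rw [h] <;> norm_num
  have hm3Z : (3 : ℤ) ≤ m := by exact_mod_cast hm3
  -- a number `±1` congruent to one is one
  have hone : ∀ γ : ℤ, (γ = 1 ∨ γ = -1) → (m : ℤ) ∣ γ - 1 → γ = 1 := by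
    rintro γ (h | h) h'
    · exact h
    · exfalso
      rw [h] at h'
      have h2 : (m : ℤ) ∣ 2 := by
        have := dvd_neg.mpr h'
        norm_num at this
        exact this
      have := Int.le_of_dvd (by norm_num) h2
      linarith
  rcases Nat.Prime.eq_two_or_odd' hl with h2 | hodd
  · -- `l = 2`
    obtain ⟨γ, hγ, hDγ⟩ : ∃ γ : ℤ, (γ = 1 ∨ γ = -1) ∧ (m : ℤ) ∣ z - γ := by
      rcases hz' with h | h
      · exact ⟨1, Or.inl rfl, h⟩
      · exact ⟨-1, Or.inr rfl, by rw [sub_neg_eq_add]; exact h⟩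
    have hγγ : γ * γ = 1 := by rcases hγ with h | h <;> rw [h] <;> norm_num
    have hγabs : |γ| = 1 := by rcases hγ with h | h <;> rw [h] <;> norm_num
    have hE : E = 1 := by
      apply hone E hE1
      have h3 : (m : ℤ) ∣ (z : ℤ) ^ l - γ ^ l := hDγ.trans (sub_dvd_pow_sub_pow _ _ l)
      have h4 : E - 1 = (z ^ l - γ ^ l) - s * Y - E * (v ^ Q - 1) := by
        rw [hzE, h2]
        linear_combination hγγ
      rw [h4]
      exact dvd_sub (dvd_sub h3 (hmP.mul_left _)) (hvQ.mul_left _)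
    refine ⟨γ * z, s, hs, ?_, ?_, ?_⟩
    · rw [abs_mul, hγabs, one_mul, Nat.abs_cast]
    · have h3 : γ * (z : ℤ) - 1 = γ * (z - γ) := by linear_combination hγγ
      rw [h3]
      exact hDγ.mul_left _
    · rw [mul_pow, hzE, h2, hE]
      linear_combination (s * (Y : ℤ) + v ^ Q) * hγγ
  · have hEl := pm_pow hodd hE1
    have hbl : (E * (z : ℤ)) ^ l = E * s * Y + v ^ Q := by
      rw [mul_pow, hEl, hzE]
      linear_combination (v ^ Q) * hEE
    refine ⟨E * z, E * s, hEs, ?_, ?_, hbl⟩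
    · rw [abs_mul, hEabs, one_mul, Nat.abs_cast]
    · have hb1 : (m : ℤ) ∣ (E * z) ^ l - 1 := by
        rw [hbl]
        have h3 : E * s * (Y : ℤ) + v ^ Q - 1 = E * s * Y + (v ^ Q - 1) := by ring
        rw [h3]
        exact dvd_add (hmP.mul_left _) hvQ
      obtain ⟨γ, hγ, hDγ⟩ : ∃ γ : ℤ, (γ = 1 ∨ γ = -1) ∧ (m : ℤ) ∣ E * z - γ := by
        rcases hz' with h | h
        · refine ⟨E, hE1, ?_⟩
          have h3 : E * (z : ℤ) - E = E * (z - 1) := by ring
          rw [h3]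
          exact h.mul_left _
        · refine ⟨-E, by rcases hE1 with h' | h' <;> rw [h'] <;> norm_num, ?_⟩
          have h3 : E * (z : ℤ) - -E = E * (z + 1) := by ring
          rw [h3]
          exact h.mul_left _
      have hγ1 : γ = 1 := by
        apply hone γ hγ
        have h3 : (m : ℤ) ∣ (E * (z : ℤ)) ^ l - γ ^ l := hDγ.trans (sub_dvd_pow_sub_pow _ _ l)
        rw [pm_pow hodd hγ] at h3
        have h4 := dvd_sub hb1 h3
        rwa [sub_sub_sub_cancel_left] at h4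
      rwa [hγ1] at hDγ

end Pool.Agent.K9h9.XR
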