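import Mathlib
import Pool.Agent.K9h9.XR.Red

/-!
# The parts of the proof: the prime divides the exponent; small exponents
-/

set_option autoImplicit false

namespace Pool.Agent.K9h9.XR

open Finset Polynomial Pool.Agent.K9h9.CB Pool.Agent.K9h9.PB Pool.Agent.K9h9.RD

lemma small_diff {M P l Q' Y z n : ℕ} {b v s : ℤ} (hl : l ≠ 0) (hkey : (M : ℤ) ^ P ∣ l * (b - v))
    (hdiff : b ^ l - v ^ l = s * Y) (hs0 : s ≠ 0) (hY0 : 0 < Y) (hbz : |b| = z)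
    (hvabs : |v| = ((n ^ Q' : ℕ) : ℤ)) : M ^ P ≤ 2 * l * max z (n ^ Q') := by
  have hbv0 : b - v ≠ 0 := by
    intro h
    have h1 : b = v := sub_eq_zero.mp h
    rw [h1, sub_self] at hdiff
    exact mul_ne_zero hs0 (by exact_mod_cast hY0.ne') hdiff.symm
  have h1 : (M : ℤ) ^ P ≤ |l * (b - v)| := by
    apply Int.le_of_dvd _ ((dvd_abs _ _).mpr hkey)
    apply abs_pos.mpr
    exact mul_ne_zero (by exact_mod_cast hl) hbv0
  have h2 : |(l : ℤ) * (b - v)| ≤ l * (z + (n ^ Q' : ℕ)) := by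
    rw [abs_mul, Nat.abs_cast]
    apply mul_le_mul_of_nonneg_left _ (by positivity)
    refine (abs_sub _ _).trans ?_
    rw [hbz, hvabs]
  have h3 : M ^ P ≤ l * (z + n ^ Q') := by exact_mod_cast h1.trans h2
  calc M ^ P ≤ l * (z + n ^ Q') := h3
    _ ≤ l * (max z (n ^ Q') + max z (n ^ Q')) :=
        Nat.mul_le_mul_left _ (add_le_add (le_max_left _ _) (le_max_right _ _))
    _ = _ := by ring

lemma part_q {m M M₂ E Y P Q l Q' z n R₀ T₀ κ K₃ : ℕ} {b v s : ℤ} (hl : l.Prime) (hP : 2 ≤ P)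
    (hlR₀ : l + 2 ≤ R₀) (hκl : κ + 1 ≤ l) (hs0 : s ≠ 0) (hY0 : 0 < Y) (hbz : |b| = z)
    (hvabs : |v| = ((n ^ Q' : ℕ) : ℤ)) (hv1 : (m : ℤ) ∣ v - 1) (hdiff : b ^ l - v ^ l = s * Y)
    (hUl : (max z (n ^ Q')) ^ l ≤ Y + n ^ Q) (hM₂m : M₂ ∣ m) (hM₂E : M₂ ∣ E) (hMM₂ : M ∣ M₂)
    (hmod : (M₂ = M ∧ ¬ l ∣ M) ∨ (M₂ = l ^ 2 * M ∧ l ∣ M)) (hbE : (E : ℤ) ∣ b - 1)
    (hmY : m ^ P ∣ Y) (hM0 : 0 < M) (hmTk : ∀ k, m ^ k ≤ T₀ ^ k * M ^ k)
    (hsum2 : (Y + n ^ Q) ^ 2 ≤ 4 * m ^ ((2 * κ + 1) * P))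
    (hK₃ : K₃ = (2 * R₀) ^ (2 * R₀) * 4 * T₀ ^ (2 * κ + 1)) (hK₃M : K₃ < M) : False := by
  have hM₂Z : (M₂ : ℤ) ∣ m := by exact_mod_cast hM₂m
  have hvM₂ : (M₂ : ℤ) ∣ v - 1 := hM₂Z.trans hv1
  have hbM₂ : (M₂ : ℤ) ∣ b - 1 := (show (M₂ : ℤ) ∣ E by exact_mod_cast hM₂E).trans hbE
  have hbv : (M₂ : ℤ) ∣ b - v := by
    have := dvd_sub hbM₂ hvM₂
    rwa [sub_sub_sub_cancel_right] at this
  have hcopv : IsCoprime (M : ℤ) v := by
    obtain ⟨k, hk⟩ := (show (M : ℤ) ∣ M₂ by exact_mod_cast hMM₂).trans hvM₂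
    refine ⟨-k, 1, ?_⟩
    linear_combination hk
  have hM₂PY : (M₂ : ℤ) ^ P ∣ Y := by exact_mod_cast (pow_dvd_pow_of_dvd hM₂m P).trans hmY
  have hkey : (M : ℤ) ^ P ∣ l * (b - v) := by
    rcases hmod with ⟨h3, h4⟩ | ⟨h3, h4⟩
    · rw [h3] at hbv hM₂PY
      refine dvd_of_pow_sub_pow (P := P) hl (Or.inl h4) hbv hcopv ?_
      rw [hdiff]
      exact hM₂PY.mul_left _
    · have h5 : (M₂ : ℤ) = (l : ℤ) ^ 2 * M := by rw [h3]; push_cast; rfl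
      rw [h5] at hbv hM₂PY
      apply Dvd.dvd.mul_left
      refine lte hl.ne_zero (Dvd.dvd.trans ?_ hbv) hcopv ?_
      · exact mul_dvd_mul_right (Dvd.intro_left _ (by ring)) _
      · rw [hdiff]
        apply Dvd.dvd.mul_left
        refine Dvd.dvd.trans ?_ hM₂PY
        rw [mul_pow, ← pow_mul]
        exact mul_dvd_mul_right (dvd_pow_self _ (by omega)) _
  have hle := small_diff hl.ne_zero hkey hdiff hs0 hY0 hbz hvabs
  obtain ⟨U, hU⟩ : ∃ U, U = max z (n ^ Q') := ⟨_, rfl⟩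
  rw [← hU] at hle hUl
  have hU2 : (U ^ l) ^ 2 ≤ 4 * m ^ ((2 * κ + 1) * P) := (Nat.pow_le_pow_left hUl 2).trans hsum2
  have h1 : M ^ P * M ^ ((2 * κ + 1) * P) ≤ K₃ ^ P * M ^ ((2 * κ + 1) * P) := by
    calc M ^ P * M ^ ((2 * κ + 1) * P) = M ^ ((2 * κ + 2) * P) := by
          rw [← pow_add]
          congr 1
          ring
      _ ≤ M ^ (P * (2 * l)) := by
          apply Nat.pow_le_pow_right hM0
          rw [mul_comm P]
          exact Nat.mul_le_mul_right _ (by omega)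
      _ = (M ^ P) ^ (2 * l) := by rw [pow_mul]
      _ ≤ (2 * l * U) ^ (2 * l) := Nat.pow_le_pow_left hle _
      _ = (2 * l) ^ (2 * l) * (U ^ l) ^ 2 := by
          rw [mul_pow, ← pow_mul U, mul_comm l 2]
      _ ≤ (2 * R₀) ^ (2 * R₀) * (4 * (T₀ ^ ((2 * κ + 1) * P) * M ^ ((2 * κ + 1) * P))) := by
          apply Nat.mul_le_mul
          · calc (2 * l) ^ (2 * l) ≤ (2 * R₀) ^ (2 * l) := Nat.pow_le_pow_left (by omega) _
              _ ≤ _ := Nat.pow_le_pow_right (by omega) (by omega)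
          · exact hU2.trans (Nat.mul_le_mul_left _ (hmTk _))
      _ = ((2 * R₀) ^ (2 * R₀) * 4) * (T₀ ^ (2 * κ + 1)) ^ P * M ^ ((2 * κ + 1) * P) := by
          rw [← pow_mul T₀]
          ring
      _ ≤ ((2 * R₀) ^ (2 * R₀) * 4) ^ P * (T₀ ^ (2 * κ + 1)) ^ P * M ^ ((2 * κ + 1) * P) := by
          apply Nat.mul_le_mul_right
          apply Nat.mul_le_mul_right
          exact Nat.le_self_pow (by omega) _
      _ = _ := by rw [hK₃, mul_pow _ (T₀ ^ (2 * κ + 1))]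
  have h2 := Nat.le_of_mul_le_mul_right h1 (by positivity)
  have h3 := (Nat.pow_le_pow_iff_left (by omega)).mp h2
  omega

lemma Y_le {m M t T₀ W Y P : ℕ} {δ : ℝ} (hm0 : 0 < m) (hM0 : 0 < M) (ht : m = M * t) (htT : t ≤ T₀)
    (hTW : (T₀ : ℝ) * (m : ℝ) ^ δ ≤ W) (hYm : (Y : ℝ) ≤ (m : ℝ) ^ ((1 + δ) * P)) :
    Y ≤ M ^ P * W ^ P := by
  have hm0R : (0 : ℝ) < m := by exact_mod_cast hm0
  have hM0R : (0 : ℝ) < M := by exact_mod_cast hM0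
  have h1 : (Y : ℝ) ≤ (M : ℝ) ^ P * (W : ℝ) ^ P := by
    calc (Y : ℝ) ≤ (m : ℝ) ^ ((1 + δ) * P) := hYm
      _ = ((m : ℝ) * (m : ℝ) ^ δ) ^ P := by
          rw [Real.rpow_mul hm0R.le, Real.rpow_natCast, Real.rpow_add hm0R, Real.rpow_one]
      _ = (M : ℝ) ^ P * ((t : ℝ) * (m : ℝ) ^ δ) ^ P := by
          rw [← mul_pow]
          congr 1
          have : (m : ℝ) = M * t := by rw [ht]; push_cast; ring
          nth_rewrite 1 [this]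
          ring
      _ ≤ (M : ℝ) ^ P * (W : ℝ) ^ P := by
          apply mul_le_mul_of_nonneg_left _ (by positivity)
          apply pow_le_pow_left₀ (by positivity)
          refine le_trans ?_ hTW
          apply mul_le_mul_of_nonneg_right _ (by positivity)
          exact_mod_cast htT
  exact_mod_cast h1

lemma size_b {m M z P P₂ l R₀ T₀ κ K₂ : ℕ} (hl : l.Prime) (hlR₀ : l + 2 ≤ R₀) (hκl : κ + 1 ≤ l)
    (hPlt : P < P₂) (hP : 2 ≤ P) (hzl2 : (z ^ l) ^ 2 ≤ 4 * m ^ ((2 * κ + 1) * P))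
    (hmTk : ∀ k, m ^ k ≤ T₀ ^ k * M ^ k) (hT₀1 : 1 ≤ T₀) (hM0 : 0 < M)
    (hK₂ : K₂ = 4 * (2 * R₀ ^ (2 * P₂)) ^ (2 * R₀) * T₀ ^ ((2 * κ + 1) * P₂)) (hK₂M : K₂ < M) :
    2 * l ^ (2 * P) * z < M ^ P := by
  have hR₀0 : 0 < R₀ := by omega
  have h1 : (2 * l ^ (2 * P) * z) ^ (2 * l) < (M ^ P) ^ (2 * l) := by
    calc (2 * l ^ (2 * P) * z) ^ (2 * l) = (2 * l ^ (2 * P)) ^ (2 * l) * (z ^ l) ^ 2 := by
          rw [mul_pow _ z, ← pow_mul z l 2, mul_comm l 2]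
      _ ≤ (2 * R₀ ^ (2 * P₂)) ^ (2 * R₀) * (4 * (T₀ ^ ((2 * κ + 1) * P₂) *
            M ^ ((2 * κ + 1) * P))) := by
          apply Nat.mul_le_mul _ (hzl2.trans (Nat.mul_le_mul_left _ ((hmTk _).trans ?_)))
          · calc (2 * l ^ (2 * P)) ^ (2 * l) ≤ (2 * R₀ ^ (2 * P₂)) ^ (2 * l) := by
                  apply Nat.pow_le_pow_left
                  apply Nat.mul_le_mul_left
                  calc l ^ (2 * P) ≤ R₀ ^ (2 * P) := Nat.pow_le_pow_left (by omega) _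
                    _ ≤ _ := Nat.pow_le_pow_right (by omega) (by omega)
              _ ≤ _ := by
                  apply Nat.pow_le_pow_right _ (by omega)
                  have : 0 < R₀ ^ (2 * P₂) := by positivity
                  omega
          · apply Nat.mul_le_mul_right
            exact Nat.pow_le_pow_right hT₀1 (Nat.mul_le_mul_left _ hPlt.le)
      _ = K₂ * M ^ ((2 * κ + 1) * P) := by rw [hK₂]; ring
      _ < M * M ^ ((2 * κ + 1) * P) := Nat.mul_lt_mul_of_pos_right hK₂M (by positivity)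
      _ = M ^ ((2 * κ + 1) * P + 1) := by ring
      _ ≤ M ^ (P * (2 * l)) := by
          apply Nat.pow_le_pow_right hM0
          have h2 : (2 * κ + 2) * P ≤ (2 * l) * P := Nat.mul_le_mul_right _ (by omega)
          have h3 : (2 * κ + 2) * P = (2 * κ + 1) * P + P := by ring
          have h4 : P * (2 * l) = (2 * l) * P := mul_comm _ _
          omega
      _ = _ := by rw [pow_mul]
  exact lt_of_pow_lt_pow_left₀ _ (Nat.zero_le _) h1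

lemma size_coeff {M P P₂ Q Q₂ l W R₀ E₁ K₁ : ℕ} (hl : l.Prime) (hlR₀ : l + 2 ≤ R₀) (hPlt : P < P₂)
    (hP : 2 ≤ P) (hQ2 : Q ≤ Q₂) (hW1 : 1 ≤ W) (hE₁ : E₁ = P₂ * R₀ + Q₂)
    (hK₁ : K₁ = (P₂ * (P₂ * (R₀ ^ (2 * P₂) * 2 ^ Q₂))) ^ R₀ + 2 * R₀ ^ (2 * P₂ * R₀))
    (hMW : K₁ * W ^ E₁ < M) : (WB P Q l W) ^ l + l ^ (2 * P * l) * (W ^ P + W ^ Q) < M := by
  have hR₀0 : 0 < R₀ := by omega
  have hR₀2 : 2 ≤ R₀ := by omega
  have hP₂0 : 0 < P₂ := by omega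
  refine lt_of_le_of_lt ?_ hMW
  have hWpos : 0 < W := hW1
  have h1 : WB P Q l W ≤ (P₂ * (P₂ * (R₀ ^ (2 * P₂) * 2 ^ Q₂))) * W ^ P₂ := by
    rw [WB]
    calc P * (P * (l ^ (2 * P) * 2 ^ Q * W ^ P)) ≤
          P₂ * (P₂ * (R₀ ^ (2 * P₂) * 2 ^ Q₂ * W ^ P₂)) := by
          apply Nat.mul_le_mul hPlt.le
          apply Nat.mul_le_mul hPlt.le
          apply Nat.mul_le_mul
          · apply Nat.mul_le_mul
            · calc l ^ (2 * P) ≤ R₀ ^ (2 * P) := Nat.pow_le_pow_left (by omega) _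
                _ ≤ _ := Nat.pow_le_pow_right (by omega) (by omega)
            · exact Nat.pow_le_pow_right (by norm_num) hQ2
          · exact Nat.pow_le_pow_right hWpos hPlt.le
      _ = _ := by ring
  have h2 : (WB P Q l W) ^ l ≤ (P₂ * (P₂ * (R₀ ^ (2 * P₂) * 2 ^ Q₂))) ^ R₀ * W ^ E₁ := by
    calc (WB P Q l W) ^ l ≤ ((P₂ * (P₂ * (R₀ ^ (2 * P₂) * 2 ^ Q₂))) * W ^ P₂) ^ l :=
          Nat.pow_le_pow_left h1 _
      _ ≤ ((P₂ * (P₂ * (R₀ ^ (2 * P₂) * 2 ^ Q₂))) * W ^ P₂) ^ R₀ := by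
          apply Nat.pow_le_pow_right _ (by omega)
          positivity
      _ = (P₂ * (P₂ * (R₀ ^ (2 * P₂) * 2 ^ Q₂))) ^ R₀ * W ^ (P₂ * R₀) := by
          rw [mul_pow, ← pow_mul W]
      _ ≤ _ := by
          apply Nat.mul_le_mul_left
          exact Nat.pow_le_pow_right hWpos (by omega)
  have h3 : l ^ (2 * P * l) * (W ^ P + W ^ Q) ≤ 2 * R₀ ^ (2 * P₂ * R₀) * W ^ E₁ := by
    have h4 : l ^ (2 * P * l) ≤ R₀ ^ (2 * P₂ * R₀) := by
      calc l ^ (2 * P * l) ≤ R₀ ^ (2 * P * l) := Nat.pow_le_pow_left (by omega) _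
        _ ≤ _ := by
          apply Nat.pow_le_pow_right (by omega)
          exact Nat.mul_le_mul (by omega) (by omega)
    have h5 : W ^ P + W ^ Q ≤ 2 * W ^ E₁ := by
      have h6 : W ^ Q ≤ W ^ E₁ := Nat.pow_le_pow_right hWpos (by omega)
      have h7 : W ^ P ≤ W ^ E₁ := by
        apply Nat.pow_le_pow_right hWpos
        have h8 : P₂ ≤ P₂ * R₀ := Nat.le_mul_of_pos_right _ (by omega)
        omega
      omega
    calc l ^ (2 * P * l) * (W ^ P + W ^ Q) ≤ R₀ ^ (2 * P₂ * R₀) * (2 * W ^ E₁) := Nat.mul_le_mul h4 h5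
      _ = _ := by ring
  calc (WB P Q l W) ^ l + l ^ (2 * P * l) * (W ^ P + W ^ Q) ≤
        (P₂ * (P₂ * (R₀ ^ (2 * P₂) * 2 ^ Q₂))) ^ R₀ * W ^ E₁ + 2 * R₀ ^ (2 * P₂ * R₀) * W ^ E₁ :=
        add_le_add h2 h3
    _ = K₁ * W ^ E₁ := by rw [hK₁]; ring

lemma part_s {m M M₂ E t Y P Q l z W : ℕ} {F : ℤ[X]} {b s : ℤ} (hl : l.Prime)
    (hlQ : ¬ l ∣ Q) (hP : 2 ≤ P) (hQ : 1 ≤ Q) (hF0 : F.coeff 0 = 1) (hFd1 : 1 ≤ F.natDegree)
    (hcond : 2 ≤ Q ∨ l * F.natDegree < (l - 1) * P) (ht : m = M * t) (ht0 : 1 ≤ t) (hM0 : 0 < M)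
    (hY0 : 0 < Y) (hmY : m ^ P ∣ Y) (hYW : Y ≤ M ^ P * W ^ P)
    (hWt : ∀ N, ∑ i ∈ range N, |F.coeff i * (t : ℤ) ^ i| ≤ (W : ℤ)) (hW1 : 1 ≤ W) (hs0 : s ≠ 0)
    (hsabs : |s| = 1) (hbz : |b| = z) (hbE : (E : ℤ) ∣ b - 1)
    (hbl : b ^ l = s * Y + (F.eval (m : ℤ)) ^ Q) (hM₂m : M₂ ∣ m) (hM₂E : M₂ ∣ E) (hMM₂ : M ∣ M₂)
    (hmod : (M₂ = M ∧ ¬ l ∣ M) ∨ (M₂ = l ^ 2 * M ∧ l ∣ M))
    (hbs : 2 * l ^ (2 * P) * z < M ^ P)
    (hbig : (WB P Q l W) ^ l + l ^ (2 * P * l) * (W ^ P + W ^ Q) < M) : False := by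
  have hMPY : M ^ P ∣ Y := (pow_dvd_pow_of_dvd (hMM₂.trans hM₂m) P).trans hmY
  obtain ⟨Y', hY'⟩ := hMPY
  have hY'0 : 0 < Y' := by
    rcases Nat.eq_zero_or_pos Y' with h | h
    · rw [h, mul_zero] at hY'
      omega
    · exact h
  have htY' : t ^ P ∣ Y' := by
    have h1 : M ^ P * t ^ P ∣ M ^ P * Y' := by
      rw [← mul_pow, ← ht, ← hY']
      exact hmY
    exact Nat.dvd_of_mul_dvd_mul_left (by positivity) h1
  have hY'W : Y' ≤ W ^ P := by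
    rw [hY'] at hYW
    exact Nat.le_of_mul_le_mul_left hYW (by positivity)
  obtain ⟨F', hF'⟩ : ∃ F' : ℤ[X], F' = F.comp (C (t : ℤ) * X) := ⟨_, rfl⟩
  have ht0Z : (t : ℤ) ≠ 0 := by
    have : t ≠ 0 := by omega
    exact_mod_cast this
  have hF'c : ∀ i, F'.coeff i = F.coeff i * (t : ℤ) ^ i := by
    intro i
    rw [hF', comp_C_mul_X_coeff]
  have hF'0 : F'.coeff 0 = 1 := by rw [hF'c, hF0, pow_zero, one_mul]
  have hF'deg : F'.natDegree = F.natDegree := by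
    rw [hF', natDegree_comp, natDegree_C_mul_X _ ht0Z, mul_one]
  have hF'eval : F'.eval (M : ℤ) = F.eval (m : ℤ) := by
    rw [hF', eval_comp, eval_mul, eval_C, eval_X]
    congr 1
    rw [ht]
    push_cast
    ring
  have hF'W : ∀ N, ∑ i ∈ range N, |F'.coeff i| ≤ (W : ℤ) := by
    intro N
    simp only [hF'c]
    exact hWt N
  have hbl' : b ^ l = (s * (Y' : ℤ)) * (M : ℤ) ^ P + (F'.eval (M : ℤ)) ^ Q := by
    rw [hbl, hF'eval, hY']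
    push_cast
    ring
  have hs'0 : s * (Y' : ℤ) ≠ 0 := mul_ne_zero hs0 (by exact_mod_cast hY'0.ne')
  have hs'W : |s * (Y' : ℤ)| ≤ (W : ℤ) ^ P := by
    rw [abs_mul, hsabs, one_mul, Nat.abs_cast]
    exact_mod_cast hY'W
  have hMmZ : (M : ℤ) ∣ b - 1 :=
    (show (M : ℤ) ∣ E by exact_mod_cast hMM₂.trans hM₂E).trans hbE
  rcases hmod with ⟨h3, h4⟩ | ⟨h3, h4⟩
  · refine digits (W := W) (s := s * (Y' : ℤ)) hl hlQ h4 hP hQ hs'0 hs'W hF'0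
      (by rw [hF'deg]; exact hFd1) (by rw [hF'deg]; exact hcond) hMmZ hbl' hW1 hF'W ?_ hbig
    rw [hbz]
    exact_mod_cast hbs
  · have hM₂Z : (M₂ : ℤ) = (l : ℤ) ^ 2 * M := by rw [h3]; push_cast; rfl
    have hl2t : l ^ 2 ∣ t := by
      have h5 : M * l ^ 2 ∣ M * t := by
        rw [← ht, mul_comm M, ← h3]
        exact hM₂m
      exact Nat.dvd_of_mul_dvd_mul_left hM0 h5
    have hl2tZ : (l : ℤ) ^ 2 ∣ t := by exact_mod_cast hl2t
    have hlt : l ∣ t := (dvd_pow_self l two_ne_zero).trans hl2t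
    have hlpow : 1 ≤ l ^ (2 * P * l) := Nat.one_le_pow _ _ hl.pos
    refine digits_r (W := W) (s := s * (Y' : ℤ)) hl hlQ h4 hP hQ hs'0 hs'W hF'0
      (by rw [hF'deg]; exact hFd1) ?_ ?_ (by rw [hF'deg]; exact hcond) ?_ hbl' hW1 hF'W ?_ ?_
    · intro i hi
      rw [hF'c]
      exact (hl2tZ.trans (dvd_pow_self _ (by omega))).mul_left _
    · have h5 : l ∣ Y' := (hlt.trans (dvd_pow_self t (by omega))).trans htY'
      exact (show (l : ℤ) ∣ Y' by exact_mod_cast h5).mul_left _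
    · have h5 : (M₂ : ℤ) ∣ b - 1 := (show (M₂ : ℤ) ∣ E by exact_mod_cast hM₂E).trans hbE
      rw [hM₂Z] at h5
      refine Dvd.dvd.trans ?_ h5
      exact mul_dvd_mul_right (Dvd.intro_left _ (by ring)) _
    · rw [hbz]
      have h5 : 2 * z ≤ 2 * l ^ (2 * P) * z := by
        apply Nat.mul_le_mul_right
        have : 1 ≤ l ^ (2 * P) := Nat.one_le_pow _ _ hl.pos
        omega
      exact_mod_cast h5.trans_lt hbs
    · refine lt_of_le_of_lt ?_ hbig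
      exact Nat.add_le_add_left (Nat.le_mul_of_pos_left _ hlpow) _

end Pool.Agent.K9h9.XR
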