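import Mathlib
import Pool.Agent.K9h9.XR.Main1

/-!
# The parts of the proof: the bound for the prime; large exponents; sizes
-/

set_option autoImplicit false

namespace Pool.Agent.K9h9.XR

open Finset Polynomial Pool.Agent.K9h9.CB Pool.Agent.K9h9.PB Pool.Agent.K9h9.RD

/-- the constants -/
def kk₁ (R₀ P₂ Q₂ : ℕ) : ℕ :=
  (P₂ * (P₂ * (R₀ ^ (2 * P₂) * 2 ^ Q₂))) ^ R₀ + 2 * R₀ ^ (2 * P₂ * R₀)

/-- the constants -/
def kk₂ (κ R₀ T₀ P₂ : ℕ) : ℕ := 4 * (2 * R₀ ^ (2 * P₂)) ^ (2 * R₀) * T₀ ^ ((2 * κ + 1) * P₂)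

/-- the constants -/
def kk₃ (κ R₀ T₀ : ℕ) : ℕ := (2 * R₀) ^ (2 * R₀) * 4 * T₀ ^ (2 * κ + 1)

/-- the constants -/
def kk₄ (κ : ℕ) : ℕ := (64 * (2 * κ + 1) ^ 2) ^ (2 * κ + 1 + 1)

/-- the assertion of `fracX` -/
def FracX (κ C₀ : ℕ) : Prop := ∀ Y y z p q r D u w : ℕ, 2 ≤ D → D ^ p ∣ Y → 0 < y → 0 < z → 0 < u →
    0 < w → Nat.Coprime w D → y * u ^ r ≠ w ^ r → z * u ^ q ≠ w ^ q →
    (y * u ^ r) ^ 2 ≡ (w ^ r) ^ 2 [MOD D] → (z * u ^ q) ^ 2 ≡ (w ^ q) ^ 2 [MOD D] → 0 < q → 0 < r →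
    Nat.Coprime q r → EqX Y y z q r → (max (y * u ^ r) (w ^ r)) ^ q ≤ D ^ (κ * p) →
    (z * u ^ q) ^ r ≤ D ^ (κ * p) → D ^ r ≤ (max (y * u ^ r) (w ^ r)) ^ C₀

/-- the assertion of `small_rootsX` -/
def SmallX (θ ε : ℝ) (L D₀ P₀ : ℕ) : Prop :=
    ∀ (Y y z p q r D u w H : ℕ) (s : ℝ), D₀ ≤ D → P₀ ≤ p → r.Prime → L ≤ r → ¬ r ∣ q →
      D ^ p ∣ Y → 0 < y → 0 < z → 0 < u → 0 < w → Nat.Coprime w D →
      ((D : ℤ) ∣ y * u ^ r - w ^ r ∨ (D : ℤ) ∣ y * u ^ r + w ^ r) →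
      ((r ≠ 2 ∧ ∀ ℓ : ℕ, ℓ.Prime → ℓ ∣ D → ¬ r ∣ ℓ - 1) ∨ (D : ℤ) ∣ z * u ^ q - w ^ q ∨
        (D : ℤ) ∣ z * u ^ q + w ^ q) →
      y * u ^ r ≠ w ^ r → z * u ^ q ≠ w ^ q → EqX Y y z q r → H = max (y * u ^ r) (w ^ r) →
      q ≤ s → (H : ℝ) ^ s ≤ (D : ℝ) ^ (θ * p) →
      (Y : ℝ) * (u : ℝ) ^ (q * r) * (w : ℝ) ^ (r * (s - q)) ≤ (H : ℝ) ^ s →
      (D : ℝ) ^ (L * (1 - θ * (L - 1) / (2 * r)) - ε) ≤ H

lemma data_q {m Y n z Q l : ℕ} {F : ℤ[X]} {b s : ℤ} (hnF : n = (F.eval (m : ℤ)).natAbs)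
    (hF1 : (m : ℤ) ∣ F.eval (m : ℤ) - 1) (hbl : b ^ l = s * Y + (F.eval (m : ℤ)) ^ Q)
    (heq : EqX Y n z Q l) (hlQ : l ∣ Q) : ∃ (Q' : ℕ) (v : ℤ), Q = l * Q' ∧ |v| = ((n ^ Q' : ℕ) : ℤ) ∧
      (m : ℤ) ∣ v - 1 ∧ b ^ l - v ^ l = s * Y ∧ (max z (n ^ Q')) ^ l ≤ Y + n ^ Q := by
  obtain ⟨Q', hQ'⟩ := hlQ
  refine ⟨Q', (F.eval (m : ℤ)) ^ Q', hQ', ?_, ?_, ?_, ?_⟩
  · rw [abs_pow, hnF]
    push_cast
    rfl
  · have := hF1.trans (sub_dvd_pow_sub_pow (F.eval (m : ℤ)) 1 Q')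
    rwa [one_pow] at this
  · rw [hbl, ← pow_mul, hQ', mul_comm Q' l]
    ring
  · rcases le_total z (n ^ Q') with h | h
    · rw [max_eq_right h, ← pow_mul, mul_comm Q' l, ← hQ']
      exact Nat.le_add_left _ _
    · rw [max_eq_left h]
      exact heq.le

lemma part_b {d κ C₀ R₀ m Y n z P Q l E D : ℕ} {F : ℤ[X]} {b s : ℤ} (hκ : 1 ≤ κ)
    (hC₀ : FracX (4 * κ + 2) C₀)
    (hR₀ : R₀ = 2 * (C₀ * (d + 1)) + 2 * κ + 4) (hl : l.Prime) (hfd1 : 1 ≤ D) (hQ : 1 ≤ Q)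
    (hP : 2 ≤ P) (hz : 2 ≤ z) (hn2 : 2 ≤ n) (hdQ : D * Q ≤ κ * P)
    (hnF : n = (F.eval (m : ℤ)).natAbs) (hF1 : (m : ℤ) ∣ F.eval (m : ℤ) - 1)
    (hbl : b ^ l = s * Y + (F.eval (m : ℤ)) ^ Q) (heq : EqX Y n z Q l) (hEmZ : (E : ℤ) ∣ m)
    (hbE : (E : ℤ) ∣ b - 1) (hEPY : E ^ P ∣ Y) (hs0 : s ≠ 0) (hY0 : 0 < Y) (hbz : |b| = z)
    (hE4 : 4 ≤ E) (hE0 : 0 < E) (hEK : (64 * (2 * κ + 1) ^ 2) ^ (2 * κ + 1 + 1) < E)
    (hsum2 : (Y + n ^ Q) ^ 2 ≤ 4 * m ^ ((2 * κ + 1) * P))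
    (hmE' : m ^ ((2 * κ + 1) * P) ≤ E ^ ((4 * κ + 2) * P))
    (hnE : (E : ℤ) ∣ n - 1 ∨ (E : ℤ) ∣ n + 1) (hzE : (E : ℤ) ∣ z - 1 ∨ (E : ℤ) ∣ z + 1)
    (hnQκ : n ^ Q ≤ m ^ ((2 * κ + 1) * P)) (hzlκ : z ^ l ≤ m ^ ((2 * κ + 1) * P))
    (hnd1 : n ≤ m ^ (d + 1)) (hmEk : ∀ k, m ^ k ≤ E ^ (2 * k)) : l + 2 ≤ R₀ := by
  by_cases hlQ : l ∣ Q
  · by_cases hl3 : l ≤ 2 * κ + 1
    · omega
    · exfalso
      obtain ⟨Q', v, hQ', hvabs, hv1, hdiff, hUl⟩ := data_q hnF hF1 hbl heq hlQ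
      have hlleQ : l ≤ Q := Nat.le_of_dvd (by omega) hlQ
      have hvE : (E : ℤ) ∣ v - 1 := hEmZ.trans hv1
      have hcopv : IsCoprime (E : ℤ) v := by
        obtain ⟨k, hk⟩ := hvE
        refine ⟨-k, 1, ?_⟩
        linear_combination hk
      have hbv : (E : ℤ) ∣ b - v := by
        have := dvd_sub hbE hvE
        rwa [sub_sub_sub_cancel_right] at this
      have hkey := dvd_of_pow_sub_pow (P := P) hl (Or.inr (by omega)) hbv hcopv (by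
        rw [hdiff]
        have h1 : (E : ℤ) ^ P ∣ Y := by exact_mod_cast hEPY
        exact h1.mul_left _)
      have hle := small_diff hl.ne_zero hkey hdiff hs0 hY0 hbz hvabs
      refine no_small (κ := 2 * κ + 1) (by omega) (by omega) (by omega) ?_ hEK hle
        (((Nat.pow_le_pow_left hUl 2).trans hsum2).trans ?_)
      · calc l ≤ 1 * Q := by omega
          _ ≤ D * Q := Nat.mul_le_mul_right _ hfd1
          _ ≤ κ * P := hdQ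
          _ ≤ _ := Nat.mul_le_mul_right _ (by omega)
      · apply Nat.mul_le_mul_left
        refine hmE'.trans (Nat.pow_le_pow_right hE0 ?_)
        exact Nat.mul_le_mul_right _ (by omega)
  · have hcop : Nat.Coprime Q l := by
      rw [Nat.coprime_comm]
      exact (Nat.Prime.coprime_iff_not_dvd hl).mpr hlQ
    have h1 := hC₀ Y n z P Q l E 1 1 (by omega) hEPY (by omega) (by omega) one_pos one_pos
      (Nat.coprime_one_left E) (by simp; omega) (by simp; omega)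
      (Pool.Agent.K9h9.SR.sq_modEq_of_pm (by simpa using hnE))
      (Pool.Agent.K9h9.SR.sq_modEq_of_pm (by simpa using hzE)) (by omega) hl.pos hcop heq (by
        simp only [one_pow, mul_one]
        rw [max_eq_left (by omega)]
        exact hnQκ.trans hmE') (by
        simp only [one_pow, mul_one]
        exact hzlκ.trans hmE')
    simp only [one_pow, mul_one] at h1
    rw [max_eq_left (by omega)] at h1
    have h2 : E ^ l ≤ E ^ (2 * (C₀ * (d + 1))) := by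
      calc E ^ l ≤ n ^ C₀ := h1
        _ ≤ (m ^ (d + 1)) ^ C₀ := Nat.pow_le_pow_left hnd1 C₀
        _ = m ^ (C₀ * (d + 1)) := by rw [← pow_mul, mul_comm]
        _ ≤ _ := hmEk _
    have h3 := (Nat.pow_le_pow_iff_right (by omega)).mp h2
    omega

lemma part_l {d κ R₀ Z D₂ P₂ m Y n z P Q l E D : ℕ} {θ ε δ : ℝ} (hκ : 1 ≤ κ)
    (hκR : (1 : ℝ) ≤ κ) (hR₀R : (1 : ℝ) ≤ R₀) (hZR : (1 : ℝ) ≤ Z)
    (hθ : θ = κ * (1 + 1 / (8 * (R₀ : ℝ) ^ 2))) (hθ1 : 1 ≤ θ)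
    (hε : ε = 1 / (8 * (R₀ : ℝ))) (hδ : δ = 1 / Z) (hδ0 : 0 < δ)
    (hδ1 : 16 * (R₀ : ℝ) * ((d + 3) * δ) ≤ 1) (hδ3 : 16 * (κ : ℝ) * δ ≤ 1)
    (hδ4 : 5 * δ ≤ 1 / (8 * (R₀ : ℝ) ^ 2))
    (hsr : ∀ L < R₀, SmallX θ ε (L + 2) D₂ P₂) (hPge : P₂ ≤ P) (hD₂E : D₂ ≤ E)
    (hZE : R₀ ^ Z ≤ E) (hl : l.Prime) (hlR₀ : l + 2 ≤ R₀) (hlκ : κ * (2 * D - 1) < l)
    (hfd1 : 1 ≤ D) (hfd : D ≤ d) (hP : 2 ≤ P) (hQ : 1 ≤ Q) (hlQ : ¬ l ∣ Q) (hz : 2 ≤ z) (hn2 : 2 ≤ n)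
    (hE4 : 4 ≤ E) (hEPY : E ^ P ∣ Y) (heq : EqX Y n z Q l) (hmlE : m ≤ l * E) (hm0R : (0 : ℝ) < m)
    (hnE : (E : ℤ) ∣ n - 1 ∨ (E : ℤ) ∣ n + 1) (hzE : (E : ℤ) ∣ z - 1 ∨ (E : ℤ) ∣ z + 1)
    (hnR : (n : ℝ) ≤ (m : ℝ) ^ ((D : ℝ) + 2 * δ))
    (hnQR : (n : ℝ) ^ Q ≤ (m : ℝ) ^ (κ * (1 + 2 * δ) * P))
    (hYm : (Y : ℝ) ≤ (m : ℝ) ^ ((1 + δ) * P)) : False := by
  have hPR : (2 : ℝ) ≤ P := by exact_mod_cast hP
  obtain ⟨L, hL⟩ : ∃ L, L = (l - 1) / κ + 1 := ⟨_, rfl⟩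
  have hκL : κ * (L - 1) ≤ l - 1 := by
    rw [hL, Nat.add_sub_cancel]
    exact Nat.mul_div_le _ _
  have hDL : 2 * D ≤ L := by
    have h1 : 2 * D - 1 ≤ (l - 1) / κ := by
      rw [Nat.le_div_iff_mul_le (by omega), mul_comm]
      omega
    omega
  have hLl : L ≤ l := by
    have h1 : (l - 1) / κ ≤ l - 1 := Nat.div_le_self _ _
    omega
  have hL2 : L - 2 + 2 = L := by omega
  -- `m` is at most `E ^ (1 + δ)`
  have hE4R : (4 : ℝ) ≤ E := by exact_mod_cast hE4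
  have hE0R : (0 : ℝ) < E := by linarith
  have hE1R : (1 : ℝ) < E := by linarith
  have hEpow : ∀ u v : ℝ, u ≤ v → (E : ℝ) ^ u ≤ (E : ℝ) ^ v := fun u v h =>
    Real.rpow_le_rpow_of_exponent_le hE1R.le h
  have hR₀E : (R₀ : ℝ) ≤ (E : ℝ) ^ δ := by
    have h1 : R₀ ^ Z ≤ E := hZE
    have h2 : ((R₀ : ℝ) ^ Z) ^ δ ≤ (E : ℝ) ^ δ := by
      apply Real.rpow_le_rpow (by positivity) _ hδ0.le
      exact_mod_cast h1
    have h3 : ((R₀ : ℝ) ^ Z) ^ δ = R₀ := by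
      rw [← Real.rpow_natCast, ← Real.rpow_mul (by positivity), hδ, mul_one_div_cancel (by positivity),
        Real.rpow_one]
    rwa [h3] at h2
  have hmE : (m : ℝ) ≤ (E : ℝ) ^ (1 + δ) := by
    have h1 : (m : ℝ) ≤ l * E := by exact_mod_cast hmlE
    have h2 : (l : ℝ) ≤ R₀ := by exact_mod_cast (show l ≤ R₀ by omega)
    calc (m : ℝ) ≤ l * E := h1
      _ ≤ (E : ℝ) ^ δ * E := mul_le_mul_of_nonneg_right (h2.trans hR₀E) hE0R.le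
      _ = _ := by rw [Real.rpow_add hE0R, Real.rpow_one, mul_comm]
  have hmErpow : ∀ c : ℝ, 0 ≤ c → (m : ℝ) ^ c ≤ (E : ℝ) ^ ((1 + δ) * c) := by
    intro c hc
    rw [Real.rpow_mul hE0R.le]
    exact Real.rpow_le_rpow hm0R.le hmE hc
  have hP0R : (0 : ℝ) ≤ P := by linarith
  have hδ1' : δ ≤ 1 := by nlinarith
  have hnQθ : (n : ℝ) ^ Q ≤ (E : ℝ) ^ (θ * P) := by
    refine hnQR.trans ((hmErpow _ (by positivity)).trans (hEpow _ _ ?_))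
    have h1 : (1 + δ) * (1 + 2 * δ) ≤ 1 + 1 / (8 * (R₀ : ℝ) ^ 2) := by nlinarith
    calc (1 + δ) * (κ * (1 + 2 * δ) * P) = κ * ((1 + δ) * (1 + 2 * δ)) * P := by ring
      _ ≤ κ * (1 + 1 / (8 * (R₀ : ℝ) ^ 2)) * P := by gcongr
      _ = _ := by rw [hθ]
  have hYθ : (Y : ℝ) ≤ (E : ℝ) ^ (θ * P) := by
    refine hYm.trans ((hmErpow _ (by positivity)).trans (hEpow _ _ ?_))
    have h1 : (1 + δ) * (1 + δ) ≤ 1 + 1 / (8 * (R₀ : ℝ) ^ 2) := by nlinarith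
    calc (1 + δ) * ((1 + δ) * P) = 1 * ((1 + δ) * (1 + δ)) * P := by ring
      _ ≤ κ * (1 + 1 / (8 * (R₀ : ℝ) ^ 2)) * P := by gcongr
      _ = _ := by rw [hθ]
  have hn2R : (2 : ℝ) ≤ n := by exact_mod_cast hn2
  have hn0R : (0 : ℝ) < n := by linarith
  have hlogn : 0 < Real.log n := Real.log_pos (by linarith)
  obtain ⟨σ, hσ⟩ : ∃ σ : ℝ, σ = θ * P * Real.log E / Real.log n := ⟨_, rfl⟩
  have hσn : Real.log n * σ = Real.log E * (θ * P) := by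
    rw [hσ]
    field_simp
  have hnσ : (n : ℝ) ^ σ = (E : ℝ) ^ (θ * P) := by
    rw [Real.rpow_def_of_pos hn0R, Real.rpow_def_of_pos hE0R, hσn]
  have hQσ : (Q : ℝ) ≤ σ := by
    have h1 := Real.log_le_log (by positivity) hnQθ
    rw [Real.log_pow, Real.log_rpow hE0R] at h1
    rw [hσ, le_div_iff₀ hlogn]
    exact h1
  have hB := hsr (L - 2) (by omega) Y n z P Q l E 1 1 n σ hD₂E hPge hl (by omega) hlQ hEPY (by omega) (by omega) one_pos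
    one_pos (Nat.coprime_one_left E) (by simpa using hnE) (Or.inr (by simpa using hzE))
    (by simp; omega) (by simp; omega) heq (by simp; omega) hQσ hnσ.le (by
      simp only [Nat.cast_one, one_pow, mul_one, Real.one_rpow]
      rw [hnσ]
      exact hYθ)
  rw [hL2] at hB
  have h0 : (n : ℝ) ≤ (E : ℝ) ^ ((1 + δ) * ((D : ℝ) + 2 * δ)) := hnR.trans (hmErpow _ (by positivity))
  have h1 := hB.trans h0
  have h2 := (Real.rpow_le_rpow_left_iff hE1R).mp h1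
  refine gap_real (L := L) (l := l) (d := D) (R := R₀) (θ := θ) (κ := κ) (ε := ε)
    (δ := (d + 3) * δ) hR₀R
    (by exact_mod_cast (show 2 ≤ L by omega)) (by exact_mod_cast hLl)
    (by exact_mod_cast (show l ≤ R₀ by omega)) (by exact_mod_cast hDL) hθ ?_ hε hδ1 (by linarith)
    (h2.trans ?_)
  · have h3 : κ * (L - 1) + 1 ≤ l := by omega
    have h4 : ((κ * (L - 1) + 1 : ℕ) : ℝ) ≤ (l : ℕ) := by exact_mod_cast h3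
    push_cast [Nat.cast_sub (show 1 ≤ L by omega)] at h4
    linarith
  · have h3 : (D : ℝ) ≤ d := by exact_mod_cast hfd
    have h4 : δ * D ≤ δ * d := mul_le_mul_of_nonneg_left h3 hδ0.le
    nlinarith

end Pool.Agent.K9h9.XR
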