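import Mathlib
import Pool.Agent.K9h9.XR.Main2

/-!
# The bases `x` and `|f(m)|`
-/

set_option autoImplicit false

namespace Pool.Agent.K9h9.XR

open Finset Polynomial Pool.Agent.K9h9.CB Pool.Agent.K9h9.PB Pool.Agent.K9h9.RD

lemma sum_coeff_le {d : ℕ} {F : ℤ[X]} {A : ℝ} (hA : 0 ≤ A) (hFd : F.natDegree ≤ d)
    (h : ∀ i, |((F.coeff i : ℤ) : ℝ)| ≤ A) (N : ℕ) :
    ∑ i ∈ range N, |((F.coeff i : ℤ) : ℝ)| ≤ (d + 1) * A := by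
  have h1 : ∀ i, |((F.coeff i : ℤ) : ℝ)| ≤ if i < d + 1 then A else 0 := by
    intro i
    split_ifs with h'
    · exact h i
    · rw [coeff_eq_zero_of_natDegree_lt (by omega)]
      simp
  refine (sum_le_sum (fun i _ => h1 i)).trans ?_
  rw [← sum_filter, sum_const, nsmul_eq_mul]
  apply mul_le_mul_of_nonneg_right _ hA
  have h2 : (filter (fun i => i < d + 1) (range N)) ⊆ range (d + 1) := by
    intro i hi
    rw [mem_filter] at hi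
    exact mem_range.mpr hi.2
  have h3 := card_le_card h2
  rw [card_range] at h3
  exact_mod_cast h3

lemma sum_scaled_le {d t T₀ W : ℕ} {F : ℤ[X]} {A : ℝ} (hA : 0 ≤ A) (hFd : F.natDegree ≤ d)
    (h : ∀ i, |((F.coeff i : ℤ) : ℝ)| ≤ A) (hT₀ : 1 ≤ T₀) (htT : t ≤ T₀)
    (hW : W = ⌊(d + 1) * (T₀ : ℝ) ^ (d + 1) * A⌋₊) (N : ℕ) :
    ∑ i ∈ range N, |F.coeff i * (t : ℤ) ^ i| ≤ (W : ℤ) := by
  have hT₀R : (1 : ℝ) ≤ T₀ := by exact_mod_cast hT₀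
  have h1 : ∑ i ∈ range N, (F.coeff i * (t : ℤ) ^ i).natAbs ≤ W := by
    rw [hW]
    apply Nat.le_floor
    have h2 : ((∑ i ∈ range N, (F.coeff i * (t : ℤ) ^ i).natAbs : ℕ) : ℝ) =
        ∑ i ∈ range N, |((F.coeff i * (t : ℤ) ^ i : ℤ) : ℝ)| := by
      push_cast
      refine sum_congr rfl ?_
      intro i _
      have h3 := Nat.cast_natAbs (α := ℝ) (F.coeff i * (t : ℤ) ^ i)
      rw [h3]
      push_cast
      rfl
    rw [h2]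
    have h3 : ∀ i ∈ range N, |((F.coeff i * (t : ℤ) ^ i : ℤ) : ℝ)| ≤
        |((F.coeff i : ℤ) : ℝ)| * (T₀ : ℝ) ^ (d + 1) := by
      intro i _
      push_cast
      rw [abs_mul]
      rcases Nat.lt_or_ge d i with h4 | h4
      · rw [coeff_eq_zero_of_natDegree_lt (by omega)]
        simp
      · apply mul_le_mul_of_nonneg_left _ (abs_nonneg _)
        rw [abs_of_nonneg (by positivity)]
        calc (t : ℝ) ^ i ≤ (T₀ : ℝ) ^ i := by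
              apply pow_le_pow_left₀ (by positivity)
              exact_mod_cast htT
          _ ≤ _ := pow_le_pow_right₀ hT₀R (by omega)
    refine (sum_le_sum h3).trans ?_
    rw [← sum_mul]
    have h4 := sum_coeff_le hA hFd h N
    calc (∑ i ∈ range N, |((F.coeff i : ℤ) : ℝ)|) * (T₀ : ℝ) ^ (d + 1) ≤
          ((d + 1) * A) * (T₀ : ℝ) ^ (d + 1) := by gcongr
      _ = _ := by ring
  have h2 : ∑ i ∈ range N, |F.coeff i * (t : ℤ) ^ i| =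
      ((∑ i ∈ range N, (F.coeff i * (t : ℤ) ^ i).natAbs : ℕ) : ℤ) := by
    push_cast
    rfl
  rw [h2]
  exact_mod_cast h1

lemma size_n {d m n : ℕ} {F : ℤ[X]} {δ : ℝ} (hm : 1 ≤ m) (hFd : F.natDegree ≤ d)
    (h : ∀ i, |((F.coeff i : ℤ) : ℝ)| ≤ (m : ℝ) ^ δ) (hd : (d : ℝ) + 1 ≤ (m : ℝ) ^ δ)
    (hn : n = (F.eval (m : ℤ)).natAbs) : (n : ℝ) ≤ (m : ℝ) ^ ((F.natDegree : ℝ) + 2 * δ) := by
  have hm1R : (1 : ℝ) ≤ m := by exact_mod_cast hm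
  have hm0R : (0 : ℝ) < m := by linarith
  have h1 : (n : ℝ) = |((F.eval (m : ℤ) : ℤ) : ℝ)| := by
    rw [hn]
    exact Nat.cast_natAbs _ |>.trans (Int.cast_abs)
  rw [h1, eval_eq_sum_range]
  push_cast
  refine (abs_sum_le_sum_abs _ _).trans ?_
  have h2 : ∀ i ∈ range (F.natDegree + 1), |((F.coeff i : ℤ) : ℝ) * (m : ℝ) ^ i| ≤
      |((F.coeff i : ℤ) : ℝ)| * (m : ℝ) ^ F.natDegree := by
    intro i hi
    have hi' := mem_range.mp hi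
    rw [abs_mul, abs_of_nonneg (by positivity : (0 : ℝ) ≤ (m : ℝ) ^ i)]
    apply mul_le_mul_of_nonneg_left _ (abs_nonneg _)
    exact pow_le_pow_right₀ hm1R (by omega)
  refine (sum_le_sum h2).trans ?_
  rw [← sum_mul]
  have hmδ0 : 0 ≤ (m : ℝ) ^ δ := by positivity
  calc (∑ i ∈ range (F.natDegree + 1), |((F.coeff i : ℤ) : ℝ)|) * (m : ℝ) ^ F.natDegree ≤
        ((d + 1) * (m : ℝ) ^ δ) * (m : ℝ) ^ F.natDegree :=
        mul_le_mul_of_nonneg_right (sum_coeff_le hmδ0 hFd h _) (by positivity)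
    _ ≤ ((m : ℝ) ^ δ * (m : ℝ) ^ δ) * (m : ℝ) ^ F.natDegree := by
        gcongr
    _ = _ := by
        rw [← Real.rpow_natCast, ← Real.rpow_add hm0R, ← Real.rpow_add hm0R]
        congr 1
        ring

/-- the value is not `0`, `1` or `-1` -/
lemma two_le_n {m n W : ℕ} {F : ℤ[X]} (hF1 : 1 ≤ F.natDegree) (hW : ∀ i, |F.coeff i| ≤ (W : ℤ))
    (hWm : W + 1 < m) (hn : n = (F.eval (m : ℤ)).natAbs) : 2 ≤ n := by
  have hWmZ : (W : ℤ) + 1 < m := by exact_mod_cast hWm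
  have hFne : ∀ c : ℤ, |c| ≤ 1 → F.eval (m : ℤ) ≠ c := by
    intro c hc h
    have h1 : F - C c ≠ 0 := by
      intro h2
      have h3 : F = C c := sub_eq_zero.mp h2
      rw [h3, natDegree_C] at hF1
      omega
    refine eval_ne_zero_of_coeff_lt (m := m) h1 ?_ ?_
    · intro i
      rw [coeff_sub, coeff_C]
      refine (abs_sub _ _).trans_lt ?_
      have h2 := hW i
      have h3 : |if i = 0 then c else 0| ≤ 1 := by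
        split_ifs
        · exact hc
        · simp
      linarith
    · rw [eval_sub, eval_C, h, sub_self]
  by_contra hcon
  have h1 : n = 0 ∨ n = 1 := by omega
  rcases h1 with h1 | h1
  · rw [hn, Int.natAbs_eq_zero] at h1
    exact hFne 0 (by simp) h1
  · rw [hn, Int.natAbs_eq_iff] at h1
    rcases h1 with h1 | h1
    · exact hFne 1 (by simp) (by exact_mod_cast h1)
    · exact hFne (-1) (by simp) (by push_cast at h1; exact h1)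

/-- the size of the power of `n` and of `Y` -/
lemma size_pow {D m n Y P Q κ : ℕ} {δ : ℝ} (hκ : 1 ≤ κ) (hm : 1 ≤ m) (hδ0 : 0 < δ)
    (hδ3 : 16 * (κ : ℝ) * δ ≤ 1) (hD : 1 ≤ D) (hQ : 1 ≤ Q) (hdQ : D * Q ≤ κ * P)
    (hnR : (n : ℝ) ≤ (m : ℝ) ^ ((D : ℝ) + 2 * δ)) (hYm : (Y : ℝ) ≤ (m : ℝ) ^ ((1 + δ) * P)) :
    (n : ℝ) ^ Q ≤ (m : ℝ) ^ (κ * (1 + 2 * δ) * P) ∧
    (n ^ Q) ^ 2 ≤ m ^ ((2 * κ + 1) * P) ∧ Y ^ 2 ≤ m ^ ((2 * κ + 1) * P) := by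
  have hm1R : (1 : ℝ) ≤ m := by exact_mod_cast hm
  have hm0R : (0 : ℝ) < m := by linarith
  have hmpow : ∀ u v : ℝ, u ≤ v → (m : ℝ) ^ u ≤ (m : ℝ) ^ v := fun u v h =>
    Real.rpow_le_rpow_of_exponent_le hm1R h
  have hκR : (1 : ℝ) ≤ κ := by exact_mod_cast hκ
  have hPR : (0 : ℝ) ≤ P := Nat.cast_nonneg _
  have hQR : (1 : ℝ) ≤ Q := by exact_mod_cast hQ
  have hD1R : (1 : ℝ) ≤ D := by exact_mod_cast hD
  have hdQR : (D : ℝ) * Q ≤ κ * P := by exact_mod_cast hdQ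
  have hδκ : δ ≤ κ * δ := le_mul_of_one_le_left hδ0.le hκR
  have hexpQ : ((D : ℝ) + 2 * δ) * Q ≤ κ * (1 + 2 * δ) * P := by
    have h1 : ((D : ℝ) + 2 * δ) * Q ≤ (1 + 2 * δ) * (D * Q) := by
      have h2 : 0 ≤ (D - 1 : ℝ) * δ * Q := by
        apply mul_nonneg (mul_nonneg (by linarith) hδ0.le) (by linarith)
      nlinarith
    calc ((D : ℝ) + 2 * δ) * Q ≤ (1 + 2 * δ) * (D * Q) := h1
      _ ≤ (1 + 2 * δ) * (κ * P) := mul_le_mul_of_nonneg_left hdQR (by linarith)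
      _ = _ := by ring
  have hnQR : (n : ℝ) ^ Q ≤ (m : ℝ) ^ (κ * (1 + 2 * δ) * P) := by
    calc (n : ℝ) ^ Q ≤ ((m : ℝ) ^ ((D : ℝ) + 2 * δ)) ^ Q :=
          pow_le_pow_left₀ (Nat.cast_nonneg _) hnR Q
      _ = (m : ℝ) ^ (((D : ℝ) + 2 * δ) * Q) := by
          rw [← Real.rpow_natCast, ← Real.rpow_mul hm0R.le]
      _ ≤ _ := hmpow _ _ hexpQ
  refine ⟨hnQR, ?_, ?_⟩
  · have h1 : ((n : ℝ) ^ Q) ^ 2 ≤ (m : ℝ) ^ (((2 * κ + 1) * P : ℕ) : ℝ) := by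
      calc ((n : ℝ) ^ Q) ^ 2 ≤ ((m : ℝ) ^ (κ * (1 + 2 * δ) * P)) ^ 2 :=
            pow_le_pow_left₀ (by positivity) hnQR 2
        _ = (m : ℝ) ^ (κ * (1 + 2 * δ) * P * 2) := by
            rw [← Real.rpow_natCast, ← Real.rpow_mul hm0R.le]
            norm_num
        _ ≤ _ := by
            apply hmpow
            push_cast
            have h3 : 4 * (κ : ℝ) * δ ≤ 1 := by
              have : 0 ≤ (κ : ℝ) * δ := by positivity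
              linarith
            have h2 : 4 * (κ : ℝ) * δ * P ≤ 1 * P := mul_le_mul_of_nonneg_right h3 hPR
            linarith
    rw [Real.rpow_natCast] at h1
    exact_mod_cast h1
  · have h1 : (Y : ℝ) ^ 2 ≤ (m : ℝ) ^ (((2 * κ + 1) * P : ℕ) : ℝ) := by
      calc (Y : ℝ) ^ 2 ≤ ((m : ℝ) ^ ((1 + δ) * P)) ^ 2 :=
            pow_le_pow_left₀ (by positivity) hYm 2
        _ = (m : ℝ) ^ ((1 + δ) * P * 2) := by
            rw [← Real.rpow_natCast, ← Real.rpow_mul hm0R.le]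
            norm_num
        _ ≤ _ := by
            apply hmpow
            push_cast
            have h2 : (1 + δ) * 2 ≤ 2 * (κ : ℝ) + 1 := by linarith
            have h3 := mul_le_mul_of_nonneg_right h2 hPR
            linarith
    rw [Real.rpow_natCast] at h1
    exact_mod_cast h1

lemma eval_cong {m : ℕ} {F : ℤ[X]} (hF0 : F.coeff 0 = 1) : (m : ℤ) ∣ F.eval (m : ℤ) - 1 := by
  have h1 := congrArg (eval (m : ℤ)) (X_mul_divX_add F)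
  rw [hF0, eval_add, eval_mul, eval_X, eval_C] at h1
  rw [← h1, add_sub_cancel_right]
  exact Dvd.intro _ rfl

lemma natAbs_cong {m : ℕ} {v : ℤ} (h : (m : ℤ) ∣ v - 1) :
    (m : ℤ) ∣ (v.natAbs : ℤ) - 1 ∨ (m : ℤ) ∣ (v.natAbs : ℤ) + 1 := by
  rcases Int.natAbs_eq v with h1 | h1
  · left
    rw [← h1]
    exact h
  · right
    rw [h1] at h
    have := dvd_neg.mpr h
    have h2 : ((v.natAbs : ℕ) : ℤ) + 1 = -(-((v.natAbs : ℕ) : ℤ) - 1) := by ring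
    rw [h2]
    exact this

/-- the power of `W` -/
lemma size_W {d m T₀ K₁ E₁ W : ℕ} {δ : ℝ} (hm : 1 ≤ m) (hδ2 : 16 * (E₁ : ℝ) * δ ≤ 1)
    (hδ0 : 0 < δ) (hW : W = ⌊(d + 1) * (T₀ : ℝ) ^ (d + 1) * (m : ℝ) ^ δ⌋₊)
    (hmK : (K₁ * ((d + 1) * T₀ ^ (d + 1)) ^ E₁ * T₀) ^ 2 < m) : K₁ * W ^ E₁ * T₀ < m := by
  have hm1R : (1 : ℝ) ≤ m := by exact_mod_cast hm
  have hm0R : (0 : ℝ) < m := by linarith
  have hWS : (W : ℝ) ≤ (d + 1) * (T₀ : ℝ) ^ (d + 1) * (m : ℝ) ^ δ := by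
    rw [hW]
    exact Nat.floor_le (by positivity)
  have hWE : (K₁ : ℝ) * (W : ℝ) ^ E₁ * T₀ < m := by
    have h1 : (W : ℝ) ^ E₁ ≤ (((d : ℝ) + 1) * (T₀ : ℝ) ^ (d + 1)) ^ E₁ * (m : ℝ) ^ (1 / 2 : ℝ) := by
      calc (W : ℝ) ^ E₁ ≤ ((d + 1) * (T₀ : ℝ) ^ (d + 1) * (m : ℝ) ^ δ) ^ E₁ :=
            pow_le_pow_left₀ (by positivity) hWS _
        _ = (((d : ℝ) + 1) * (T₀ : ℝ) ^ (d + 1)) ^ E₁ * (m : ℝ) ^ (δ * E₁) := by
            rw [mul_pow _ ((m : ℝ) ^ δ), ← Real.rpow_natCast ((m : ℝ) ^ δ),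
              ← Real.rpow_mul hm0R.le]
        _ ≤ _ := by
            apply mul_le_mul_of_nonneg_left _ (by positivity)
            apply Real.rpow_le_rpow_of_exponent_le hm1R
            have : 0 ≤ (E₁ : ℝ) * δ := by positivity
            linarith
    have h2 : (K₁ : ℝ) * (((d : ℝ) + 1) * (T₀ : ℝ) ^ (d + 1)) ^ E₁ * T₀ < (m : ℝ) ^ (1 / 2 : ℝ) := by
      rw [← Real.sqrt_eq_rpow]
      apply Real.lt_sqrt_of_sq_lt
      exact_mod_cast hmK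
    have h3 : (m : ℝ) ^ (1 / 2 : ℝ) * (m : ℝ) ^ (1 / 2 : ℝ) = m := by
      rw [← Real.rpow_add hm0R]
      norm_num
    have h4 : 0 < (m : ℝ) ^ (1 / 2 : ℝ) := by positivity
    calc (K₁ : ℝ) * (W : ℝ) ^ E₁ * T₀ ≤
          K₁ * ((((d : ℝ) + 1) * (T₀ : ℝ) ^ (d + 1)) ^ E₁ * (m : ℝ) ^ (1 / 2 : ℝ)) * T₀ := by gcongr
      _ = (K₁ * (((d : ℝ) + 1) * (T₀ : ℝ) ^ (d + 1)) ^ E₁ * T₀) * (m : ℝ) ^ (1 / 2 : ℝ) := by ring
      _ < (m : ℝ) ^ (1 / 2 : ℝ) * (m : ℝ) ^ (1 / 2 : ℝ) := mul_lt_mul_of_pos_right h2 h4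
      _ = m := h3
  exact_mod_cast hWE

lemma size_TW {d m T₀ W : ℕ} {δ : ℝ} (hm : 1 ≤ m) (hd : 1 ≤ d) (hT₀ : 1 ≤ T₀) (hδ0 : 0 < δ)
    (hW : W = ⌊(d + 1) * (T₀ : ℝ) ^ (d + 1) * (m : ℝ) ^ δ⌋₊) : (T₀ : ℝ) * (m : ℝ) ^ δ ≤ W := by
  have hm1R : (1 : ℝ) ≤ m := by exact_mod_cast hm
  have hmδ1 : 1 ≤ (m : ℝ) ^ δ := Real.one_le_rpow hm1R hδ0.le
  have hT₀R : (1 : ℝ) ≤ T₀ := by exact_mod_cast hT₀
  have h1 : (d + 1) * (T₀ : ℝ) ^ (d + 1) * (m : ℝ) ^ δ < W + 1 := by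
    rw [hW]
    exact Nat.lt_floor_add_one _
  have h2 : (2 : ℝ) ≤ (d : ℝ) + 1 := by
    have : (1 : ℝ) ≤ d := by exact_mod_cast hd
    linarith
  have h3 : (T₀ : ℝ) ≤ (T₀ : ℝ) ^ (d + 1) := le_self_pow₀ hT₀R (by omega)
  have h4 : 2 * (T₀ : ℝ) * (m : ℝ) ^ δ ≤ (d + 1) * (T₀ : ℝ) ^ (d + 1) * (m : ℝ) ^ δ := by
    gcongr
  have h5 : (1 : ℝ) ≤ T₀ * (m : ℝ) ^ δ := by
    calc (1 : ℝ) = 1 * 1 := by ring
      _ ≤ _ := by gcongr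
  linarith

/-- the choice of the constants -/
lemma exists_consts (d κ R₀ E₁ : ℕ) (hκ : 1 ≤ κ) (hR₀ : 1 ≤ R₀) (hE₁ : 1 ≤ E₁) :
    ∃ (Z : ℕ) (δ : ℝ), (1 : ℝ) ≤ Z ∧ δ = 1 / Z ∧ 0 < δ ∧ 16 * (R₀ : ℝ) * ((d + 3) * δ) ≤ 1 ∧
      16 * (E₁ : ℝ) * δ ≤ 1 ∧ 16 * (κ : ℝ) * δ ≤ 1 ∧ 5 * δ ≤ 1 / (8 * (R₀ : ℝ) ^ 2) := by
  have hκR : (1 : ℝ) ≤ κ := by exact_mod_cast hκ
  have hR₀R : (1 : ℝ) ≤ R₀ := by exact_mod_cast hR₀
  have hE₁R : (1 : ℝ) ≤ E₁ := by exact_mod_cast hE₁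
  have hd0R : (0 : ℝ) ≤ d := Nat.cast_nonneg _
  obtain ⟨Z, hZ⟩ : ∃ Z, Z = 16 * R₀ ^ 2 * κ * E₁ * (d + 3) := ⟨_, rfl⟩
  have hZ1 : 1 ≤ Z := by
    rw [hZ]
    have : 0 < 16 * R₀ ^ 2 * κ * E₁ * (d + 3) := by positivity
    omega
  have hZR : (1 : ℝ) ≤ Z := by exact_mod_cast hZ1
  obtain ⟨δ, hδ⟩ : ∃ δ : ℝ, δ = 1 / Z := ⟨_, rfl⟩
  have hδ0 : 0 < δ := by rw [hδ]; positivity
  have hδZ : δ * (16 * (R₀ : ℝ) ^ 2 * κ * E₁ * (d + 3)) = 1 := by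
    rw [hδ, hZ]
    push_cast
    field_simp
  refine ⟨Z, δ, hZR, hδ, hδ0, ?_, ?_, ?_, ?_⟩
  · rw [← hδZ]
    have h1 : (R₀ : ℝ) * (d + 3) ≤ (R₀ : ℝ) ^ 2 * κ * E₁ * (d + 3) := by
      calc (R₀ : ℝ) * (d + 3) = R₀ * 1 * 1 * 1 * (d + 3) := by ring
        _ ≤ R₀ * R₀ * κ * E₁ * (d + 3) := by gcongr
        _ = _ := by ring
    nlinarith
  · rw [← hδZ]
    have h1 : (E₁ : ℝ) ≤ (R₀ : ℝ) ^ 2 * κ * E₁ * (d + 3) := by
      calc (E₁ : ℝ) = 1 * 1 * 1 * E₁ * 1 := by ring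
        _ ≤ R₀ * R₀ * κ * E₁ * (d + 3) := by gcongr; linarith
        _ = _ := by ring
    nlinarith
  · rw [← hδZ]
    have h1 : (κ : ℝ) ≤ (R₀ : ℝ) ^ 2 * κ * E₁ * (d + 3) := by
      calc (κ : ℝ) = 1 * 1 * κ * 1 * 1 := by ring
        _ ≤ R₀ * R₀ * κ * E₁ * (d + 3) := by gcongr; linarith
        _ = _ := by ring
    nlinarith
  · rw [le_div_iff₀ (by positivity)]
    rw [← hδZ]
    have h1 : (R₀ : ℝ) ^ 2 * 3 ≤ (R₀ : ℝ) ^ 2 * κ * E₁ * (d + 3) := by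
      calc (R₀ : ℝ) ^ 2 * 3 = (R₀ : ℝ) ^ 2 * 1 * 1 * 3 := by ring
        _ ≤ (R₀ : ℝ) ^ 2 * κ * E₁ * (d + 3) := by gcongr; linarith
    nlinarith

lemma SmallX.mono {θ ε : ℝ} {L D₀ D₀' P₀ P₀' : ℕ} (h : SmallX θ ε L D₀ P₀) (hD : D₀ ≤ D₀')
    (hP : P₀ ≤ P₀') : SmallX θ ε L D₀' P₀' :=
  fun Y y z p q r D u w H s h1 h2 => h Y y z p q r D u w H s (hD.trans h1) (hP.trans h2)

lemma exists_small (θ ε : ℝ) (hθ : 1 ≤ θ) (hε : 0 < ε) (R₀ : ℕ) :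
    ∃ D₂ P₂ : ℕ, 2 ≤ P₂ ∧ ∀ L < R₀, SmallX θ ε (L + 2) D₂ P₂ := by
  choose D₁ P₁ hsr using fun L : ℕ => small_rootsX θ ε hθ hε (L + 2) (by omega)
  refine ⟨∑ i ∈ range R₀, D₁ i, ∑ i ∈ range R₀, P₁ i + 2, by omega, ?_⟩
  intro L hL
  have h1 : SmallX θ ε (L + 2) (D₁ L) (P₁ L) := hsr L
  refine h1.mono ?_ ?_
  · exact single_le_sum (f := D₁) (fun _ _ => Nat.zero_le _) (mem_range.mpr hL)
  · have := single_le_sum (f := P₁) (fun _ _ => Nat.zero_le _) (mem_range.mpr hL)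
    omega

end Pool.Agent.K9h9.XR
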