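import Mathlib
import Pool.Agent.K9h9.XR.Main

/-!
# The main theorem on polynomial bases
-/

set_option autoImplicit false

namespace Pool.Agent.K9h9.XR

open Finset Polynomial Pool.Agent.K9h9.CB Pool.Agent.K9h9.PB Pool.Agent.K9h9.RD

/-- the proof with opaque constants -/
lemma assemble {d κ C₀ R₀ T₀ D₂ P₂ E₁ K₁ K₂ K₃ K₄ Z : ℕ} {θ ε δ : ℝ} (hκ : 1 ≤ κ)
    (hC₀ : FracX (4 * κ + 2) C₀) (hR₀ : R₀ = 2 * (C₀ * (d + 1)) + 2 * κ + 4) (hT₀ : T₀ = R₀ ^ 3)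
    (hθ : θ = κ * (1 + 1 / (8 * (R₀ : ℝ) ^ 2))) (hθ1 : 1 ≤ θ) (hε : ε = 1 / (8 * (R₀ : ℝ)))
    (hE₁ : E₁ = P₂ * R₀ + κ * P₂) (hE₁1 : 1 ≤ E₁) (hK₁ : K₁ = kk₁ R₀ P₂ (κ * P₂))
    (hK₁2 : 2 ≤ K₁) (hK₂ : K₂ = kk₂ κ R₀ T₀ P₂) (hK₃ : K₃ = kk₃ κ R₀ T₀) (hK₄ : K₄ = kk₄ κ)
    (hsr : ∀ L < R₀, SmallX θ ε (L + 2) D₂ P₂) (hZR : (1 : ℝ) ≤ Z) (hδ : δ = 1 / Z) (hδ0 : 0 < δ)
    (hδ1 : 16 * (R₀ : ℝ) * ((d + 3) * δ) ≤ 1) (hδ2 : 16 * (E₁ : ℝ) * δ ≤ 1)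
    (hδ3 : 16 * (κ : ℝ) * δ ≤ 1) (hδ4 : 5 * δ ≤ 1 / (8 * (R₀ : ℝ) ^ 2))
    {m Y z P Q l : ℕ} {f : ℤ[X]}
    (hmT : (D₂ + (d + 1) ^ Z + R₀ ^ Z + K₂ + K₃ + K₄ + 16) * T₀ ≤ m)
    (hmK : (K₁ * ((d + 1) * T₀ ^ (d + 1)) ^ E₁ * T₀) ^ 2 < m) (hmK4 : K₄ ^ 2 < m)
    (hmY : m ^ P ∣ Y) (hY0 : 0 < Y) (hYm : (Y : ℝ) ≤ (m : ℝ) ^ ((1 + δ) * P))
    (hfd1 : 1 ≤ f.natDegree) (hfd : f.natDegree ≤ d) (hf0 : |f.coeff 0| = 1)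
    (hfc : ∀ i, |(f.coeff i : ℝ)| ≤ (m : ℝ) ^ δ) (hP : 2 ≤ P) (hQ : 1 ≤ Q)
    (hdQ : f.natDegree * Q ≤ κ * P) (hcond : 2 ≤ Q ∨ l * f.natDegree < (l - 1) * P)
    (hl : l.Prime) (hlκ : κ * (2 * f.natDegree - 1) < l) (hz : 2 ≤ z) (hzm : Cond m z l)
    (heq : EqX Y (f.eval (m : ℤ)).natAbs z Q l) : False := by
  have hR₀1 : 1 ≤ R₀ := by omega
  have hR₀R : (1 : ℝ) ≤ R₀ := by exact_mod_cast hR₀1
  have hκR : (1 : ℝ) ≤ κ := by exact_mod_cast hκ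
  have hT₀1 : 1 ≤ T₀ := by rw [hT₀]; exact Nat.one_le_pow _ _ hR₀1
  have hmT' : D₂ + (d + 1) ^ Z + R₀ ^ Z + K₂ + K₃ + K₄ + 16 ≤ m :=
    (Nat.le_mul_of_pos_right _ hT₀1).trans hmT
  have hmd : (d + 1) ^ Z ≤ m := by omega
  have hm16 : 16 ≤ m := by omega
  have hm1 : 1 ≤ m := by omega
  have hm3 : 3 ≤ m := by omega
  have hm0R : (0 : ℝ) < m := by exact_mod_cast hm1
  have hκl : κ + 1 ≤ l := by
    have h1 : κ * 1 ≤ κ * (2 * f.natDegree - 1) := Nat.mul_le_mul_left _ (by omega)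
    omega
  -- the polynomial `F`
  obtain ⟨u, hu⟩ : ∃ u, u = f.coeff 0 := ⟨_, rfl⟩
  rw [← hu] at hf0
  have hu1 : u = 1 ∨ u = -1 := by
    rcases abs_eq (zero_le_one' ℤ) |>.mp hf0 with h | h
    · exact Or.inl h
    · exact Or.inr h
  have huu : u * u = 1 := by rcases hu1 with h | h <;> rw [h] <;> norm_num
  obtain ⟨F, hF⟩ : ∃ F : ℤ[X], F = C u * f := ⟨_, rfl⟩
  have hFc : ∀ i, F.coeff i = u * f.coeff i := by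
    intro i
    rw [hF, coeff_C_mul]
  have hFabs : ∀ i, |F.coeff i| = |f.coeff i| := by
    intro i
    rw [hFc, abs_mul, hf0, one_mul]
  have hF0 : F.coeff 0 = 1 := by rw [hFc, ← hu, huu]
  have hu0 : u ≠ 0 := by rcases hu1 with h | h <;> rw [h] <;> norm_num
  have hFdeg : F.natDegree = f.natDegree := by rw [hF, natDegree_C_mul hu0]
  obtain ⟨n, hn⟩ : ∃ n, n = (f.eval (m : ℤ)).natAbs := ⟨_, rfl⟩
  rw [← hn] at heq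
  have hnF : n = (F.eval (m : ℤ)).natAbs := by
    rw [hn, hF, eval_mul, eval_C, Int.natAbs_mul]
    rcases hu1 with h | h <;> rw [h] <;> simp
  rw [← hFdeg] at hfd1 hfd hdQ hcond hlκ
  have hFcR : ∀ i, |((F.coeff i : ℤ) : ℝ)| ≤ (m : ℝ) ^ δ := by
    intro i
    have h2 : |((F.coeff i : ℤ) : ℝ)| = |((f.coeff i : ℤ) : ℝ)| := by
      have := hFabs i
      rw [← Int.cast_abs, ← Int.cast_abs, this]
    rw [h2]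
    exact hfc i
  obtain ⟨W, hW⟩ : ∃ W, W = ⌊(d + 1) * (T₀ : ℝ) ^ (d + 1) * (m : ℝ) ^ δ⌋₊ := ⟨_, rfl⟩
  have hmδ0 : 0 ≤ (m : ℝ) ^ δ := by positivity
  have hWt : ∀ t : ℕ, t ≤ T₀ → ∀ N, ∑ i ∈ range N, |F.coeff i * (t : ℤ) ^ i| ≤ (W : ℤ) :=
    fun t ht N => sum_scaled_le hmδ0 hfd hFcR hT₀1 ht hW N
  have hTW := size_TW hm1 (hfd1.trans hfd) hT₀1 hδ0 hW
  have hW1 : 1 ≤ W := by
    have h1 : (1 : ℝ) ≤ (T₀ : ℝ) * (m : ℝ) ^ δ := by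
      have h2 : 1 ≤ (m : ℝ) ^ δ := Real.one_le_rpow (by exact_mod_cast hm1) hδ0.le
      have h3 : (1 : ℝ) ≤ T₀ := by exact_mod_cast hT₀1
      nlinarith
    exact_mod_cast h1.trans hTW
  have hWEN : K₁ * W ^ E₁ * T₀ < m := size_W hm1 hδ2 hδ0 hW hmK
  have hWm : W + 1 < m := by
    have h1 : W ^ 1 ≤ W ^ E₁ := Nat.pow_le_pow_right hW1 hE₁1
    rw [pow_one] at h1
    have h2 : 2 * W ≤ K₁ * W ^ E₁ := Nat.mul_le_mul hK₁2 h1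
    have h3 : K₁ * W ^ E₁ ≤ K₁ * W ^ E₁ * T₀ := Nat.le_mul_of_pos_right _ hT₀1
    omega
  have hcW : ∀ i, |F.coeff i| ≤ (W : ℤ) := by
    intro i
    have h1 := single_le_sum (s := range (i + 1)) (f := fun j => |F.coeff j|)
      (fun _ _ => abs_nonneg _) (mem_range.mpr (Nat.lt_succ_self i))
    have h2 := hWt 1 hT₀1 (i + 1)
    simp only [Nat.cast_one, one_pow, mul_one] at h2
    exact h1.trans h2
  have hn2 : 2 ≤ n := two_le_n hfd1 hcW hWm hnF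
  have hdm : (d : ℝ) + 1 ≤ (m : ℝ) ^ δ := by
    have h4 : (((d : ℝ) + 1) ^ Z) ^ δ ≤ (m : ℝ) ^ δ := by
      apply Real.rpow_le_rpow (by positivity) _ hδ0.le
      exact_mod_cast hmd
    have h5 : (((d : ℝ) + 1) ^ Z) ^ δ = (d : ℝ) + 1 := by
      rw [← Real.rpow_natCast, ← Real.rpow_mul (by positivity), hδ, mul_one_div_cancel (by positivity),
        Real.rpow_one]
    rwa [h5] at h4
  have hnR := size_n hm1 hfd hFcR hdm hnF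
  obtain ⟨hnQR, hnQ2, hYP2⟩ := size_pow hκ hm1 hδ0 hδ3 hfd1 hQ hdQ hnR hYm
  have hsum2 : (Y + n ^ Q) ^ 2 ≤ 4 * m ^ ((2 * κ + 1) * P) := by
    have h1 : (Y + n ^ Q) ^ 2 ≤ 2 * Y ^ 2 + 2 * (n ^ Q) ^ 2 := by
      zify
      nlinarith [sq_nonneg ((Y : ℤ) - (n : ℤ) ^ Q)]
    omega
  -- the congruences modulo `m`
  have hF1 : (m : ℤ) ∣ F.eval (m : ℤ) - 1 := eval_cong hF0
  have hnpm : (m : ℤ) ∣ n - 1 ∨ (m : ℤ) ∣ n + 1 := by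
    rw [hnF]
    exact natAbs_cong hF1
  have hmY1 : m ∣ Y := (dvd_pow_self m (by omega)).trans hmY
  obtain ⟨E, hEm, hmlE, hmE2, hzE⟩ := exists_E hl hm3 hmY1 heq hnpm hzm
  have hE4 : 4 ≤ E := by
    by_contra hcon
    have h1 : E ≤ 3 := by omega
    have h2 : E ^ 2 ≤ 3 ^ 2 := Nat.pow_le_pow_left h1 2
    omega
  have hE0 : 0 < E := by omega
  have hEmZ : (E : ℤ) ∣ m := by exact_mod_cast hEm
  obtain ⟨b, s, hs, hbz, hbE, hbl⟩ := reduceX (v := F.eval (m : ℤ)) hl (by omega) (hEm.trans hmY1)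
    (hEmZ.trans hF1) hnF heq hzE
  have hs0 : s ≠ 0 := by rcases hs with h | h <;> rw [h] <;> norm_num
  have hsabs : |s| = 1 := by rcases hs with h | h <;> rw [h] <;> norm_num
  have hnE : (E : ℤ) ∣ n - 1 ∨ (E : ℤ) ∣ n + 1 := by
    rcases hnpm with h | h
    · exact Or.inl (hEmZ.trans h)
    · exact Or.inr (hEmZ.trans h)
  have hEPY : E ^ P ∣ Y := (pow_dvd_pow_of_dvd hEm P).trans hmY
  have hmEk : ∀ k, m ^ k ≤ E ^ (2 * k) := by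
    intro k
    calc m ^ k ≤ (E ^ 2) ^ k := Nat.pow_le_pow_left hmE2 k
      _ = _ := by rw [← pow_mul]
  have hnd1 : n ≤ m ^ (d + 1) := by
    have h1 : (n : ℝ) ≤ (m : ℝ) ^ ((d + 1 : ℕ) : ℝ) := by
      refine hnR.trans (Real.rpow_le_rpow_of_exponent_le (by exact_mod_cast hm1) ?_)
      push_cast
      have h2 : (F.natDegree : ℝ) ≤ d := by exact_mod_cast hfd
      have h3 : 16 * δ ≤ 16 * (κ : ℝ) * δ := by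
        have : δ ≤ κ * δ := le_mul_of_one_le_left hδ0.le hκR
        linarith
      linarith
    rw [Real.rpow_natCast] at h1
    exact_mod_cast h1
  have hnQκ : n ^ Q ≤ m ^ ((2 * κ + 1) * P) := by
    have h1 : n ^ Q ≤ (n ^ Q) ^ 2 := Nat.le_self_pow two_ne_zero _
    exact h1.trans hnQ2
  have hzl2 : (z ^ l) ^ 2 ≤ 4 * m ^ ((2 * κ + 1) * P) := (Nat.pow_le_pow_left heq.le 2).trans hsum2
  have hzlκ : z ^ l ≤ m ^ ((2 * κ + 1) * P) := by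
    have h1 : (z ^ l) ^ 2 ≤ (m ^ ((2 * κ + 1) * P)) ^ 2 := by
      refine hzl2.trans ?_
      rw [pow_two (m ^ ((2 * κ + 1) * P))]
      apply Nat.mul_le_mul_right
      calc 4 ≤ m := by omega
        _ = m ^ 1 := (pow_one m).symm
        _ ≤ _ := by
            apply Nat.pow_le_pow_right hm1
            have : 0 < (2 * κ + 1) * P := by positivity
            omega
    exact (Nat.pow_le_pow_iff_left two_ne_zero).mp h1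
  have hmE' : m ^ ((2 * κ + 1) * P) ≤ E ^ ((4 * κ + 2) * P) := by
    refine (hmEk _).trans (le_of_eq ?_)
    congr 1
    ring
  have hEK : K₄ < E := by
    by_contra hcon
    have h1 : E ^ 2 ≤ K₄ ^ 2 := Nat.pow_le_pow_left (by omega) 2
    omega
  have hlR₀ : l + 2 ≤ R₀ := part_b hκ hC₀ hR₀ hl hfd1 hQ hP hz hn2 hdQ hnF hF1 hbl heq hEmZ hbE hEPY
    hs0 hY0 hbz hE4 hE0 (by rw [hK₄, kk₄] at hEK; exact hEK) hsum2 hmE' hnE hzE hnQκ hzlκ hnd1 hmEk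
  -- the moduli
  obtain ⟨M, M₂, hM₂E, hMM₂, hEM, hmod⟩ := choose_moduli hl hE0.ne'
  have hM₂m : M₂ ∣ m := hM₂E.trans hEm
  obtain ⟨t, ht⟩ : M ∣ m := hMM₂.trans hM₂m
  have hM0 : 0 < M := by
    rcases Nat.eq_zero_or_pos M with h | h
    · rw [h, zero_mul] at ht
      omega
    · exact h
  have ht0 : 1 ≤ t := by
    rcases Nat.eq_zero_or_pos t with h | h
    · rw [h, mul_zero] at ht
      omega
    · exact h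
  have hmTM : m ≤ T₀ * M := by
    calc m ≤ l * E := hmlE
      _ ≤ l * (l ^ 2 * M) := Nat.mul_le_mul_left _ hEM
      _ = l ^ 3 * M := by ring
      _ ≤ T₀ * M := by
          rw [hT₀]
          exact Nat.mul_le_mul_right _ (Nat.pow_le_pow_left (by omega) 3)
  have htT : t ≤ T₀ := by
    have h1 : M * t ≤ M * T₀ := by
      rw [← ht, mul_comm M T₀]
      exact hmTM
    exact Nat.le_of_mul_le_mul_left h1 hM0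
  have hMbig : D₂ + (d + 1) ^ Z + R₀ ^ Z + K₂ + K₃ + K₄ + 16 ≤ M := by
    have h1 : (D₂ + (d + 1) ^ Z + R₀ ^ Z + K₂ + K₃ + K₄ + 16) * T₀ ≤ M * T₀ := by
      rw [mul_comm M T₀]
      exact hmT.trans hmTM
    exact Nat.le_of_mul_le_mul_right h1 hT₀1
  have hMW : K₁ * W ^ E₁ < M := by
    have h1 : K₁ * W ^ E₁ * T₀ < M * T₀ := by
      rw [mul_comm M T₀]
      exact hWEN.trans_le hmTM
    exact Nat.lt_of_mul_lt_mul_right h1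
  have hME : M ≤ E := Nat.le_of_dvd hE0 (hMM₂.trans hM₂E)
  have hmTk : ∀ k, m ^ k ≤ T₀ ^ k * M ^ k := by
    intro k
    rw [← mul_pow]
    exact Nat.pow_le_pow_left hmTM k
  by_cases hlQ : l ∣ Q
  · -- `l` divides `Q`
    obtain ⟨Q', v, hQ', hvabs, hv1, hdiff, hUl⟩ := data_q hnF hF1 hbl heq hlQ
    exact part_q hl hP hlR₀ hκl hs0 hY0 hbz hvabs hv1 hdiff hUl hM₂m hM₂E hMM₂ hmod hbE hmY hM0 hmTk
      hsum2 hK₃ (by omega)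
  -- `l` does not divide `Q`
  rcases Nat.lt_or_ge P P₂ with hPlt | hPge
  · -- small exponents
    have hQ2 : Q ≤ κ * P₂ := by
      calc Q ≤ F.natDegree * Q := Nat.le_mul_of_pos_left _ hfd1
        _ ≤ κ * P := hdQ
        _ ≤ _ := Nat.mul_le_mul_left _ hPlt.le
    have hYW := Y_le hm1 hM0 ht htT hTW hYm
    have hbs := size_b hl hlR₀ hκl hPlt hP hzl2 hmTk hT₀1 hM0 hK₂ (by omega)
    have hbig := size_coeff hl hlR₀ hPlt hP hQ2 hW1 hE₁ hK₁ hMW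
    exact part_s hl hlQ hP hQ hF0 hfd1 hcond ht ht0 hM0 hY0 hmY hYW (hWt t htT) hW1 hs0 hsabs hbz hbE
      hbl hM₂m hM₂E hMM₂ hmod hbs hbig
  · -- large exponents
    exact part_l hκ hκR hR₀R hZR hθ hθ1 hε hδ hδ0 hδ1 hδ3 hδ4 hsr hPge (by omega) (by omega) hl hlR₀ hlκ
      hfd1 hfd hP hQ hlQ hz hn2 hE4 hEPY heq hmlE hm0R hnE hzE hnR hnQR hYm

theorem poly_mainX (d κ : ℕ) (hκ : 1 ≤ κ) : ∃ δ : ℝ, 0 < δ ∧ ∃ N : ℕ,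
    ∀ (m Y z P Q l : ℕ) (f : ℤ[X]), N ≤ m → m ^ P ∣ Y → 0 < Y → (Y : ℝ) ≤ (m : ℝ) ^ ((1 + δ) * P) →
      1 ≤ f.natDegree → f.natDegree ≤ d → |f.coeff 0| = 1 →
      (∀ i, |(f.coeff i : ℝ)| ≤ (m : ℝ) ^ δ) → 2 ≤ P → 1 ≤ Q →
      f.natDegree * Q ≤ κ * P → (2 ≤ Q ∨ l * f.natDegree < (l - 1) * P) → l.Prime →
      κ * (2 * f.natDegree - 1) < l → 2 ≤ z → Cond m z l →
      ¬ EqX Y (f.eval (m : ℤ)).natAbs z Q l := by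
  obtain ⟨C₀, hC₀'⟩ := fracX (4 * κ + 2)
  have hC₀ : FracX (4 * κ + 2) C₀ := hC₀'
  obtain ⟨R₀, hR₀⟩ : ∃ R₀, R₀ = 2 * (C₀ * (d + 1)) + 2 * κ + 4 := ⟨_, rfl⟩
  obtain ⟨T₀, hT₀⟩ : ∃ T₀, T₀ = R₀ ^ 3 := ⟨_, rfl⟩
  have hR₀1 : 1 ≤ R₀ := by omega
  have hR₀R : (1 : ℝ) ≤ R₀ := by exact_mod_cast hR₀1
  have hκR : (1 : ℝ) ≤ κ := by exact_mod_cast hκ
  obtain ⟨θ, hθ⟩ : ∃ θ : ℝ, θ = κ * (1 + 1 / (8 * (R₀ : ℝ) ^ 2)) := ⟨_, rfl⟩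
  obtain ⟨ε, hε⟩ : ∃ ε : ℝ, ε = 1 / (8 * (R₀ : ℝ)) := ⟨_, rfl⟩
  have hε0 : 0 < ε := by rw [hε]; positivity
  have hτ0 : (0 : ℝ) < 1 / (8 * (R₀ : ℝ) ^ 2) := by positivity
  have hθ1 : 1 ≤ θ := by
    rw [hθ]
    nlinarith
  obtain ⟨D₂, P₂, hP₂2, hsr⟩ := exists_small θ ε hθ1 hε0 R₀
  obtain ⟨E₁, hE₁⟩ : ∃ E₁, E₁ = P₂ * R₀ + κ * P₂ := ⟨_, rfl⟩
  have hE₁1 : 1 ≤ E₁ := by
    rw [hE₁]
    have : 0 < P₂ * R₀ := by positivity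
    omega
  obtain ⟨K₁, hK₁⟩ : ∃ K₁, K₁ = kk₁ R₀ P₂ (κ * P₂) := ⟨_, rfl⟩
  have hK₁2 : 2 ≤ K₁ := by
    rw [hK₁, kk₁]
    have : 0 < R₀ ^ (2 * P₂ * R₀) := by positivity
    omega
  obtain ⟨K₂, hK₂⟩ : ∃ K₂, K₂ = kk₂ κ R₀ T₀ P₂ := ⟨_, rfl⟩
  obtain ⟨K₃, hK₃⟩ : ∃ K₃, K₃ = kk₃ κ R₀ T₀ := ⟨_, rfl⟩
  obtain ⟨K₄, hK₄⟩ : ∃ K₄, K₄ = kk₄ κ := ⟨_, rfl⟩
  obtain ⟨Z, δ, hZR, hδ, hδ0, hδ1, hδ2, hδ3, hδ4⟩ := exists_consts d κ R₀ E₁ hκ hR₀1 hE₁1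
  refine ⟨δ, hδ0, (D₂ + (d + 1) ^ Z + R₀ ^ Z + K₂ + K₃ + K₄ + 16) * T₀ +
    (K₁ * ((d + 1) * T₀ ^ (d + 1)) ^ E₁ * T₀) ^ 2 + K₄ ^ 2 + 1, ?_⟩
  intro m Y z P Q l f hm hmY hY0 hYm hfd1 hfd hf0 hfc hP hQ hdQ hcond hl hlκ hz hzm heq
  exact assemble hκ hC₀ hR₀ hT₀ hθ hθ1 hε hE₁ hE₁1 hK₁ hK₁2 hK₂ hK₃ hK₄ hsr hZR hδ hδ0 hδ1 hδ2 hδ3 hδ4
    (by omega) (by omega) (by omega) hmY hY0 hYm hfd1 hfd hf0 hfc hP hQ hdQ hcond hl hlκ hz hzm heq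

end Pool.Agent.K9h9.XR
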