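import Mathlib
import Pool.Agent.K9h9.XR.Final

/-!
# The main theorem on polynomial bases with a condition on a large divisor only
-/

set_option autoImplicit false

namespace Pool.Agent.K9h9.XR

open Finset Polynomial

theorem poly_mainD (d κ : ℕ) (hκ : 1 ≤ κ) : ∃ δ : ℝ, 0 < δ ∧ ∃ N : ℕ,
    ∀ (m D Y z P Q l : ℕ) (f : ℤ[X]), N ≤ m → D ∣ m → (m : ℝ) ≤ (D : ℝ) ^ (1 + δ) →
      m ^ P ∣ Y → 0 < Y → (Y : ℝ) ≤ (m : ℝ) ^ ((1 + δ) * P) →
      1 ≤ f.natDegree → f.natDegree ≤ d → |f.coeff 0| = 1 →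
      (∀ i, |(f.coeff i : ℝ)| ≤ (m : ℝ) ^ δ) → 2 ≤ P → 1 ≤ Q →
      f.natDegree * Q ≤ κ * P → (2 ≤ Q ∨ l * f.natDegree < (l - 1) * P) → l.Prime →
      κ * (2 * f.natDegree - 1) < l → 2 ≤ z → Cond D z l →
      ¬ EqX Y (f.eval (m : ℤ)).natAbs z Q l := by
  obtain ⟨δ₀, hδ₀, N, h⟩ := poly_mainX d κ hκ
  obtain ⟨δ₁, hδ₁, hδ₁0, hδ₁1⟩ : ∃ δ₁ : ℝ, 0 < δ₁ ∧ δ₁ ≤ δ₀ ∧ δ₁ ≤ 1 :=
    ⟨min δ₀ 1, lt_min hδ₀ one_pos, min_le_left _ _, min_le_right _ _⟩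
  have hd0 : (0 : ℝ) ≤ d := by positivity
  obtain ⟨δ, hδdef⟩ : ∃ δ : ℝ, δ = δ₁ / (d + 4) := ⟨_, rfl⟩
  have hδ : 0 < δ := by rw [hδdef]; positivity
  have hdδ : ((d : ℝ) + 4) * δ = δ₁ := by rw [hδdef]; field_simp
  have hδ1 : δ ≤ 1 := by nlinarith
  refine ⟨δ, hδ, N ^ 2 + 1, ?_⟩
  intro m D Y z P Q l f hm hDm hmD hmY hY hYm hf1 hfd hf0 hfc hP hQ hfQ hQP hl hκl hz hcond heq
  obtain ⟨e, he⟩ := hDm
  have hm0 : 0 < m := by omega
  have hD0 : 0 < D := by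
    rcases Nat.eq_zero_or_pos D with h0 | h0
    · rw [h0, zero_mul] at he
      omega
    · exact h0
  have he0 : 0 < e := by
    rcases Nat.eq_zero_or_pos e with h0 | h0
    · rw [h0, mul_zero] at he
      omega
    · exact h0
  have hD1R : (1 : ℝ) ≤ D := by exact_mod_cast hD0
  have hD0R : (0 : ℝ) < D := by linarith
  have he0R : (0 : ℝ) < e := by exact_mod_cast he0
  have he1R : (1 : ℝ) ≤ e := by exact_mod_cast he0
  have hm0R : (0 : ℝ) ≤ m := by positivity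
  have hND : N ≤ D := by
    by_contra hcon
    have h1 : D ^ 2 ≤ N ^ 2 := Nat.pow_le_pow_left (by omega) 2
    have h2 : (m : ℝ) ≤ (D : ℝ) ^ ((2 : ℕ) : ℝ) := by
      refine hmD.trans (Real.rpow_le_rpow_of_exponent_le hD1R ?_)
      push_cast
      linarith
    rw [Real.rpow_natCast] at h2
    have h3 : m ≤ D ^ 2 := by exact_mod_cast h2
    omega
  -- `e ≤ D ^ δ`
  have heδ : (e : ℝ) ≤ (D : ℝ) ^ δ := by
    have h1 : (m : ℝ) = (D : ℝ) * e := by rw [he]; push_cast; ring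
    rw [h1, Real.rpow_add hD0R, Real.rpow_one] at hmD
    exact le_of_mul_le_mul_left hmD hD0R
  have hmpow : ∀ t : ℝ, 0 ≤ t → (m : ℝ) ^ t ≤ (D : ℝ) ^ ((1 + δ) * t) := by
    intro t ht
    rw [Real.rpow_mul hD0R.le]
    exact Real.rpow_le_rpow hm0R hmD ht
  have heZ : (e : ℤ) ≠ 0 := by exact_mod_cast he0.ne'
  obtain ⟨g, hg⟩ : ∃ g : ℤ[X], g = f.comp (C (e : ℤ) * X) := ⟨_, rfl⟩
  have hgdeg : g.natDegree = f.natDegree := by
    rw [hg, natDegree_comp, natDegree_C_mul_X _ heZ, mul_one]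
  have hgc : ∀ i, g.coeff i = f.coeff i * (e : ℤ) ^ i := by
    intro i
    rw [hg, comp_C_mul_X_coeff]
  have hgev : g.eval (D : ℤ) = f.eval (m : ℤ) := by
    rw [hg, eval_comp, eval_mul, eval_C, eval_X, he]
    congr 1
    push_cast
    ring
  have hfd' := hfd
  rw [← hgdeg] at hQP hfQ hκl hf1 hfd
  refine h D Y z P Q l g hND ?_ hY ?_ hf1 hfd ?_ ?_ hP hQ hfQ hQP hl hκl hz hcond ?_
  · refine (pow_dvd_pow_of_dvd ?_ P).trans hmY
    rw [he]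
    exact dvd_mul_right _ _
  · have hP0 : (0 : ℝ) ≤ P := by positivity
    refine hYm.trans ((hmpow _ (by positivity)).trans
      (Real.rpow_le_rpow_of_exponent_le hD1R ?_))
    rw [← mul_assoc]
    refine mul_le_mul_of_nonneg_right ?_ hP0
    nlinarith
  · rw [hgc, pow_zero, mul_one]
    exact hf0
  · intro i
    rw [hgc]
    push_cast
    by_cases hi : f.natDegree < i
    · rw [coeff_eq_zero_of_natDegree_lt hi]
      simp only [Int.cast_zero, zero_mul, abs_zero]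
      positivity
    · push Not at hi
      rw [abs_mul, abs_pow, Nat.abs_cast]
      have hid : i ≤ d := hi.trans hfd'
      have h1 : (e : ℝ) ^ i ≤ (D : ℝ) ^ (δ * d) := by
        calc (e : ℝ) ^ i ≤ (e : ℝ) ^ d := pow_le_pow_right₀ he1R hid
          _ ≤ ((D : ℝ) ^ δ) ^ d := pow_le_pow_left₀ he0R.le heδ d
          _ = (D : ℝ) ^ (δ * d) := by rw [Real.rpow_mul hD0R.le, Real.rpow_natCast]
      calc |(f.coeff i : ℝ)| * (e : ℝ) ^ i ≤ (D : ℝ) ^ ((1 + δ) * δ) * (D : ℝ) ^ (δ * d) :=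
            mul_le_mul ((hfc i).trans (hmpow _ hδ.le)) h1 (by positivity) (by positivity)
        _ = (D : ℝ) ^ ((1 + δ) * δ + δ * d) := (Real.rpow_add hD0R _ _).symm
        _ ≤ (D : ℝ) ^ δ₀ := by
            refine Real.rpow_le_rpow_of_exponent_le hD1R ?_
            nlinarith
  · rw [hgev]
    exact heq

end Pool.Agent.K9h9.XR
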